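import Mathlib
import Pool.Agent.Helper22.ETModel
import Pool.Agent.Helper8.VT.Defs

/-!
# Votes of conversations about one vertex

The classes of vertices are the residues modulo 3. Let `c` be a vertex of class `0`. Alice knows all
the weights except those between the classes `1` and `2`. Bob knows all the weights except those
between `c` and the class `2`. All voters know the flags.
-/

set_option autoImplicit false

namespace Pool.Agent.Helper5.R4

open Pool.Agent.Helper22.ETModel Pool.Agent.Helper8.VT

/-- The cell `u v` lies between the classes `1` and `2`. -/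
def Far {n : ℕ} (u v : Fin n) : Prop :=
  ((u : ℕ) % 3 = 1 ∧ (v : ℕ) % 3 = 2) ∨ ((u : ℕ) % 3 = 2 ∧ (v : ℕ) % 3 = 1)

/-- The cell `u v` lies between the vertex `c` and the class `q`. -/
def Near {n : ℕ} (c : Fin n) (q : ℕ) (u v : Fin n) : Prop :=
  (u = c ∧ (v : ℕ) % 3 = q) ∨ (v = c ∧ (u : ℕ) % 3 = q)

instance {n : ℕ} (u v : Fin n) : Decidable (Far u v) := by
  unfold Far; infer_instance

instance {n : ℕ} (c : Fin n) (q : ℕ) (u v : Fin n) : Decidable (Near c q u v) := by
  unfold Near; infer_instance

/-- What Alice knows: the cells between the classes `1` and `2` are filled with zeros. -/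
def aliceView {n : ℕ} (w : Wts n) : Wts n := fun u v => if Far u v then 0 else w u v

/-- The cells between `c` and the class `q` are filled with zeros. What Bob knows is
`nearView c 2 w`. -/
def nearView {n : ℕ} (c : Fin n) (q : ℕ) (w : Wts n) : Wts n := fun u v =>
  if Near c q u v then 0 else w u v

/-- Conversations in which Alice says at most `a` bits and Bob says at most `b` bits. Every bit
depends in an arbitrary way on what the speaker knows and on the bits said before. The vote at the
end is the sum of an arbitrary real function of what Alice knows and of the bits said and of an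
arbitrary real function of what Bob knows and of the bits said. -/
inductive Conv (n : ℕ) : ℕ → ℕ → Type
  | vote {a b : ℕ} (v v' : Wts n → ℝ) : Conv n a b
  | alice {a b : ℕ} (bit : Wts n → Bool) (next : Bool → Conv n a b) : Conv n (a + 1) b
  | bob {a b : ℕ} (bit : Wts n → Bool) (next : Bool → Conv n a b) : Conv n a (b + 1)

/-- The vote if Alice knows `A` and Bob knows `C`. -/
def Conv.eval {n : ℕ} : {a b : ℕ} → Conv n a b → Wts n → Wts n → ℝ
  | _, _, .vote v v', A, C => v A + v' C
  | _, _, .alice bit next, A, C => (next (bit A)).eval A C
  | _, _, .bob bit next, A, C => (next (bit C)).eval A C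

/-- `H` ignores the weights between `c` and the class `1`, or those between `c` and the class `2`,
or those between the classes `1` and `2`. -/
def IsFree {n : ℕ} (c : Fin n) (H : Inst n → ℝ) : Prop :=
  ∃ F : Flags n → Wts n → ℝ,
    (∀ I : Inst n, I.Valid → H I = F I.flag (nearView c 1 I.wt)) ∨
    (∀ I : Inst n, I.Valid → H I = F I.flag (nearView c 2 I.wt)) ∨
    (∀ I : Inst n, I.Valid → H I = F I.flag (aliceView I.wt))

/-- `H` is computed by conversations about `c` in which Alice says at most `a` bits and Bob says at
most `b` bits. -/
def IsConv {n : ℕ} (c : Fin n) (a b : ℕ) (H : Inst n → ℝ) : Prop :=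
  ∃ P : Flags n → Conv n a b, ∀ I : Inst n, I.Valid →
    H I = (P I.flag).eval (aliceView I.wt) (nearView c 2 I.wt)

end Pool.Agent.Helper5.R4
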