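import Mathlib
import Pool.Agent.Helper5.R4.Defs
import Pool.Agent.Helper5.RV.Sys

/-!
# The random instance at one vertex

`x` are the weights between `c` and the class `1`, `y` those between the classes `1` and `2`, and
`-u` those between `c` and the class `2`. The other cells between the classes `0` and `1` have the
weight `0`, the other cells between the classes `0` and `2` the weight `1`; so all triangles with
the sum zero contain `c`.
-/

set_option autoImplicit false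

namespace Pool.Agent.Helper5.R4

open Finset Pool.Agent.Helper22.ETModel Pool.Agent.Helper8.VT Pool.Agent.Helper5.RV

/-- the sum -/
def pz {m N : ℕ} (a : Fin m) (b : Fin N) : Fin (m + N) := ⟨(a : ℕ) + b, by omega⟩

/-- there is a triangle with sum zero -/
def YesR {J K : Type} {m N : ℕ} (x : J → Fin m) (y : J × K → Fin N) (u : K → Fin (m + N)) : Prop :=
  ∃ j k, u k = pz (x j) (y (j, k))

/-- the cell `k₁` is planted by `x j₁, y` and the cell `k₂` by `x' j₂, y'` -/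
def plant12 {J K : Type} [DecidableEq K] {m N : ℕ} (x x' : J → Fin m) (y y' : J × K → Fin N)
    (u : K → Fin (m + N)) (j₁ : J) (k₁ : K) (j₂ : J) (k₂ : K) : K → Fin (m + N) :=
  Function.update (Function.update u k₁ (pz (x j₁) (y (j₁, k₁)))) k₂ (pz (x' j₂) (y' (j₂, k₂)))

/-- the weights of the instance -/
def wts1 {n m N : ℕ} (c : Fin n) (x : Cls n 1 → Fin m) (y : Cls n 1 × Cls n 2 → Fin N)
    (u : Cls n 2 → Fin (m + N)) : Wts n := fun a b =>
  if h : a = c ∧ (b : ℕ) % 3 = 1 then ((x ⟨b, h.2⟩ : ℕ) : ℤ)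
  else if h : b = c ∧ (a : ℕ) % 3 = 1 then ((x ⟨a, h.2⟩ : ℕ) : ℤ)
  else if h : (a : ℕ) % 3 = 1 ∧ (b : ℕ) % 3 = 2 then ((y (⟨a, h.1⟩, ⟨b, h.2⟩) : ℕ) : ℤ)
  else if h : (a : ℕ) % 3 = 2 ∧ (b : ℕ) % 3 = 1 then ((y (⟨b, h.2⟩, ⟨a, h.1⟩) : ℕ) : ℤ)
  else if h : a = c ∧ (b : ℕ) % 3 = 2 then -((u ⟨b, h.2⟩ : ℕ) : ℤ)
  else if h : b = c ∧ (a : ℕ) % 3 = 2 then -((u ⟨a, h.2⟩ : ℕ) : ℤ)
  else if ((a : ℕ) % 3 = 0 ∧ (b : ℕ) % 3 = 2) ∨ ((a : ℕ) % 3 = 2 ∧ (b : ℕ) % 3 = 0) then 1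
  else 0

/-- the complete tripartite instance -/
def mk1 {n m N : ℕ} (c : Fin n) (x : Cls n 1 → Fin m) (y : Cls n 1 × Cls n 2 → Fin N)
    (u : Cls n 2 → Fin (m + N)) : Inst n where
  flag a b := decide ((a : ℕ) % 3 ≠ (b : ℕ) % 3)
  wt := wts1 c x y u

end Pool.Agent.Helper5.R4
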