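import Mathlib
import Pool.Agent.Helper5.R4.Sys

/-!
# Two steps

`D u = V x y u - V x' y u - V x y' u + V x' y' u` is positive with probability at most `1/2`, and
with probability nearly `4/5` after one cell has been planted by `x, y` and another one by `x', y'`.
-/

set_option autoImplicit false

namespace Pool.Agent.Helper5.R4

open Finset
open Pool.Agent.Helper5.RV (ind ind_nonneg ind_le_one ind_of ind_of_not ind_mono)

variable {J K : Type} [Fintype J] [DecidableEq J] [Fintype K] [DecidableEq K] {m N : ℕ}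

/-- the alternating sum -/
def dd (V : (J → Fin m) → (J × K → Fin N) → (K → Fin (m + N)) → ℝ)
    (x x' : J → Fin m) (y y' : J × K → Fin N) (u : K → Fin (m + N)) : ℝ :=
  V x y u - V x' y u - V x y' u + V x' y' u

/-- the alternating sum is positive -/
noncomputable def ff (V : (J → Fin m) → (J × K → Fin N) → (K → Fin (m + N)) → ℝ)
    (x x' : J → Fin m) (y y' : J × K → Fin N) (u : K → Fin (m + N)) : ℝ :=
  ind (0 < dd V x x' y y' u)

/-- the sum over all choices -/
def T5 (b : (J → Fin m) → (J → Fin m) → (J × K → Fin N) → (J × K → Fin N) →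
    (K → Fin (m + N)) → ℝ) : ℝ :=
  ∑ x, ∑ x', ∑ y, ∑ y', ∑ u, b x x' y y' u

/-- the number of all choices -/
noncomputable def Sz (J K : Type) [Fintype J] [DecidableEq J] [Fintype K] [DecidableEq K]
    (m N : ℕ) : ℝ :=
  (Fintype.card (J → Fin m) : ℝ) ^ 2 * (Fintype.card (J × K → Fin N) : ℝ) ^ 2 *
    Fintype.card (K → Fin (m + N))

theorem T5_const (c : ℝ) : T5 (fun (_ _ : J → Fin m) (_ _ : J × K → Fin N)
    (_ : K → Fin (m + N)) => c) = Sz J K m N * c := by
  unfold T5 Sz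
  simp_rw [sum_const, card_univ, nsmul_eq_mul]
  ring

theorem T5_add (b b' : (J → Fin m) → (J → Fin m) → (J × K → Fin N) → (J × K → Fin N) →
    (K → Fin (m + N)) → ℝ) :
    T5 (fun x x' y y' u => b x x' y y' u + b' x x' y y' u) = T5 b + T5 b' := by
  unfold T5
  simp_rw [sum_add_distrib]

theorem T5_sub (b b' : (J → Fin m) → (J → Fin m) → (J × K → Fin N) → (J × K → Fin N) →
    (K → Fin (m + N)) → ℝ) :
    T5 (fun x x' y y' u => b x x' y y' u - b' x x' y y' u) = T5 b - T5 b' := by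
  unfold T5
  simp_rw [sum_sub_distrib]

theorem T5_mul (r : ℝ) (b : (J → Fin m) → (J → Fin m) → (J × K → Fin N) → (J × K → Fin N) →
    (K → Fin (m + N)) → ℝ) :
    T5 (fun x x' y y' u => r * b x x' y y' u) = r * T5 b := by
  unfold T5
  simp_rw [mul_sum]

theorem T5_mono {b b' : (J → Fin m) → (J → Fin m) → (J × K → Fin N) → (J × K → Fin N) →
    (K → Fin (m + N)) → ℝ} (h : ∀ x x' y y' u, b x x' y y' u ≤ b' x x' y y' u) :
    T5 b ≤ T5 b' := by
  unfold T5
  exact sum_le_sum fun x _ => sum_le_sum fun x' _ => sum_le_sum fun y _ => sum_le_sum fun y' _ =>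
    sum_le_sum fun u _ => h x x' y y' u

theorem T5_swap (b : (J → Fin m) → (J → Fin m) → (J × K → Fin N) → (J × K → Fin N) →
    (K → Fin (m + N)) → ℝ) :
    T5 (fun x x' y y' u => b x' x y y' u) = T5 b := by
  unfold T5
  rw [sum_comm]

theorem T5_sum {α : Type} (s : Finset α) (b : α → (J → Fin m) → (J → Fin m) →
    (J × K → Fin N) → (J × K → Fin N) → (K → Fin (m + N)) → ℝ) :
    T5 (fun x x' y y' u => ∑ a ∈ s, b a x x' y y' u) = ∑ a ∈ s, T5 (b a) := by
  classical
  induction s using Finset.induction_on with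
  | empty => simp [T5]
  | insert a s ha ih =>
    simp_rw [sum_insert ha]
    rw [T5_add, ih]

/-- at random the alternating sum is positive with probability at most one half -/
theorem T5_ff_le (V : (J → Fin m) → (J × K → Fin N) → (K → Fin (m + N)) → ℝ) :
    T5 (ff V) ≤ Sz J K m N / 2 := by
  have h1 : T5 (fun x x' y y' u => ff V x x' y y' u + ff V x' x y y' u) ≤
      T5 (fun (_ _ : J → Fin m) (_ _ : J × K → Fin N) (_ : K → Fin (m + N)) => (1 : ℝ)) := by
    refine T5_mono fun x x' y y' u => ?_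
    unfold ff
    have h2 : dd V x' x y y' u = -dd V x x' y y' u := by unfold dd; ring
    rw [h2]
    by_cases h : 0 < dd V x x' y y' u
    · rw [ind_of h, ind_of_not (by linarith)]; norm_num
    · rw [ind_of_not h, zero_add]; exact ind_le_one _
  rw [T5_add, T5_swap (ff V), T5_const, mul_one] at h1
  linarith

/-- the vote is wrong -/
noncomputable def wr (V : (J → Fin m) → (J × K → Fin N) → (K → Fin (m + N)) → ℝ)
    (x : J → Fin m) (y : J × K → Fin N) (u : K → Fin (m + N)) : ℝ :=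
  ind (¬ (0 < V x y u ↔ YesR x y u))

/-- the crossed instances are yes instances by chance -/
noncomputable def bad₁ (j₁ : J) (k₁ : K) (j₂ : J) (k₂ : K) (x x' : J → Fin m)
    (y y' : J × K → Fin N) (u : K → Fin (m + N)) : ℝ :=
  ind (YesR x' y (plant12 x x' y y' u j₁ k₁ j₂ k₂))

/-- the crossed instances are yes instances by chance -/
noncomputable def bad₂ (j₁ : J) (k₁ : K) (j₂ : J) (k₂ : K) (x x' : J → Fin m)
    (y y' : J × K → Fin N) (u : K → Fin (m + N)) : ℝ :=
  ind (YesR x y' (plant12 x x' y y' u j₁ k₁ j₂ k₂))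

omit [Fintype J] [DecidableEq J] [Fintype K] in
/-- the error of the alternating sum -/
theorem err_le (V : (J → Fin m) → (J × K → Fin N) → (K → Fin (m + N)) → ℝ)
    (j₁ : J) (k₁ : K) (j₂ : J) (k₂ : K) (hk : k₂ ≠ k₁) (x x' : J → Fin m)
    (y y' : J × K → Fin N) (u : K → Fin (m + N)) :
    1 ≤ ff V x x' y y' (plant12 x x' y y' u j₁ k₁ j₂ k₂) +
      (wr V x y (plant12 x x' y y' u j₁ k₁ j₂ k₂) + wr V x' y (plant12 x x' y y' u j₁ k₁ j₂ k₂) +
      wr V x y' (plant12 x x' y y' u j₁ k₁ j₂ k₂) +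
      wr V x' y' (plant12 x x' y y' u j₁ k₁ j₂ k₂)) +
      (bad₁ j₁ k₁ j₂ k₂ x x' y y' u + bad₂ j₁ k₁ j₂ k₂ x x' y y' u) := by
  unfold bad₁ bad₂
  obtain ⟨P, hP⟩ : ∃ P, P = plant12 x x' y y' u j₁ k₁ j₂ k₂ := ⟨_, rfl⟩
  have y1 : YesR x y P := ⟨j₁, k₁, by
    rw [hP]; unfold plant12
    rw [Function.update_of_ne hk.symm, Function.update_self]⟩
  have y2 : YesR x' y' P := ⟨j₂, k₂, by
    rw [hP]; unfold plant12
    rw [Function.update_self]⟩
  rw [← hP]
  have n1 : 0 ≤ wr V x y P := ind_nonneg _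
  have n2 : 0 ≤ wr V x' y P := ind_nonneg _
  have n3 : 0 ≤ wr V x y' P := ind_nonneg _
  have n4 : 0 ≤ wr V x' y' P := ind_nonneg _
  have n5 : 0 ≤ ind (YesR x' y P) := ind_nonneg _
  have n6 : 0 ≤ ind (YesR x y' P) := ind_nonneg _
  have n7 : 0 ≤ ff V x x' y y' P := ind_nonneg _
  by_cases c1 : 0 < V x y P ↔ YesR x y P
  swap
  · have : wr V x y P = 1 := ind_of c1
    linarith
  by_cases c2 : 0 < V x' y P ↔ YesR x' y P
  swap
  · have : wr V x' y P = 1 := ind_of c2
    linarith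
  by_cases c3 : 0 < V x y' P ↔ YesR x y' P
  swap
  · have : wr V x y' P = 1 := ind_of c3
    linarith
  by_cases c4 : 0 < V x' y' P ↔ YesR x' y' P
  swap
  · have : wr V x' y' P = 1 := ind_of c4
    linarith
  by_cases c5 : YesR x' y P
  · have : ind (YesR x' y P) = 1 := ind_of c5
    linarith
  by_cases c6 : YesR x y' P
  · have : ind (YesR x y' P) = 1 := ind_of c6
    linarith
  have e1 : 0 < V x y P := c1.2 y1
  have e2 : 0 < V x' y' P := c4.2 y2
  have e3 : ¬ 0 < V x' y P := fun h => c5 (c2.1 h)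
  have e4 : ¬ 0 < V x y' P := fun h => c6 (c3.1 h)
  have e5 : 0 < dd V x x' y y' P := by unfold dd; linarith
  have e6 : ff V x x' y y' P = 1 := ind_of e5
  linarith

/-- the doubly planted instances -/
theorem planted_ge {Ω : Type} [Fintype Ω]
    (V : Ω → (J → Fin m) → (J × K → Fin N) → (K → Fin (m + N)) → ℝ)
    (hc : ∀ x y u, ∑ ω, wr (V ω) x y u ≤ (Fintype.card Ω : ℝ) / 20) (β : ℝ)
    (j₁ : J) (k₁ : K) (j₂ : J) (k₂ : K) (hk : k₂ ≠ k₁)
    (h1 : T5 (m := m) (N := N) (bad₁ j₁ k₁ j₂ k₂) ≤ β * Sz J K m N)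
    (h2 : T5 (m := m) (N := N) (bad₂ j₁ k₁ j₂ k₂) ≤ β * Sz J K m N) :
    (Fintype.card Ω : ℝ) * Sz J K m N * (4 / 5 - 2 * β) ≤
      ∑ ω, T5 (fun x x' y y' u => ff (V ω) x x' y y' (plant12 x x' y y' u j₁ k₁ j₂ k₂)) := by
  have h3 : T5 (fun (_ _ : J → Fin m) (_ _ : J × K → Fin N) (_ : K → Fin (m + N)) =>
      (Fintype.card Ω : ℝ)) ≤ T5 (fun x x' y y' u =>
      (∑ ω, ff (V ω) x x' y y' (plant12 x x' y y' u j₁ k₁ j₂ k₂)) +
        ((Fintype.card Ω : ℝ) / 5 + (Fintype.card Ω : ℝ) *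
          (bad₁ j₁ k₁ j₂ k₂ x x' y y' u + bad₂ j₁ k₁ j₂ k₂ x x' y y' u))) := by
    refine T5_mono fun x x' y y' u => ?_
    have h4 := sum_le_sum fun ω (_ : ω ∈ (univ : Finset Ω)) =>
      err_le (V ω) j₁ k₁ j₂ k₂ hk x x' y y' u
    simp_rw [sum_add_distrib] at h4
    rw [sum_const, sum_const, sum_const, card_univ, nsmul_eq_mul, nsmul_eq_mul, nsmul_eq_mul,
      mul_one] at h4
    have a1 := hc x y (plant12 x x' y y' u j₁ k₁ j₂ k₂)
    have a2 := hc x' y (plant12 x x' y y' u j₁ k₁ j₂ k₂)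
    have a3 := hc x y' (plant12 x x' y y' u j₁ k₁ j₂ k₂)
    have a4 := hc x' y' (plant12 x x' y y' u j₁ k₁ j₂ k₂)
    linarith
  rw [T5_const, T5_add, T5_sum, T5_add, T5_const, T5_mul, T5_add] at h3
  have hΩ : (0 : ℝ) ≤ Fintype.card Ω := Nat.cast_nonneg _
  have b1 := mul_le_mul_of_nonneg_left h1 hΩ
  have b2 := mul_le_mul_of_nonneg_left h2 hΩ
  linarith

/-- **the core inequality** -/
theorem core {Ω : Type} [Fintype Ω] [Nonempty Ω] [Nonempty J] [Nonempty K] (hm : 0 < m)
    (hN : 0 < N) (V : Ω → (J → Fin m) → (J × K → Fin N) → (K → Fin (m + N)) → ℝ)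
    (hc : ∀ x y u, ∑ ω, wr (V ω) x y u ≤ (Fintype.card Ω : ℝ) / 20) (β : ℝ)
    (h1 : ∀ (j₁ : J) (k₁ : K) (j₂ : J) (k₂ : K), k₂ ≠ k₁ →
      T5 (m := m) (N := N) (bad₁ j₁ k₁ j₂ k₂) ≤ β * Sz J K m N)
    (h2 : ∀ (j₁ : J) (k₁ : K) (j₂ : J) (k₂ : K), k₂ ≠ k₁ →
      T5 (m := m) (N := N) (bad₂ j₁ k₁ j₂ k₂) ≤ β * Sz J K m N)
    (κ : Ω → ℝ) (hκ : ∀ ω, 0 ≤ κ ω)
    (hA : ∀ ω x x' y', ∑ y, ∑ u, ∑ p : J × K,
      (ff (V ω) x x' y y' (Function.update u p.2 (pz (x p.1) (y p))) - ff (V ω) x x' y y' u) ≤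
      Fintype.card (J × K → Fin N) * Fintype.card (K → Fin (m + N)) *
        (Fintype.card J * Fintype.card K) * κ ω)
    (hB : ∀ ω x x' y (q : J × K), ∑ y', ∑ u, ∑ p : J × K,
      (ff (V ω) x x' y y' (Function.update (Function.update u p.2 (pz (x' p.1) (y' p))) q.2
        (pz (x q.1) (y q))) - ff (V ω) x x' y y' (Function.update u q.2 (pz (x q.1) (y q)))) ≤
      Fintype.card (J × K → Fin N) * Fintype.card (K → Fin (m + N)) *
        (Fintype.card J * Fintype.card K) * κ ω) :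
    (1 - 1 / (Fintype.card K : ℝ)) * (3 / 10 - 2 * β) ≤ 2 * ((∑ ω, κ ω) / Fintype.card Ω) := by
  have : Nonempty (Fin m) := ⟨⟨0, hm⟩⟩
  have : Nonempty (Fin N) := ⟨⟨0, hN⟩⟩
  have : Nonempty (Fin (m + N)) := ⟨⟨0, by omega⟩⟩
  obtain ⟨b, hb⟩ : ∃ b : ℝ, b = Fintype.card J := ⟨_, rfl⟩
  obtain ⟨c, hc'⟩ : ∃ c : ℝ, c = Fintype.card K := ⟨_, rfl⟩
  obtain ⟨O, hO⟩ : ∃ O : ℝ, O = Fintype.card Ω := ⟨_, rfl⟩
  obtain ⟨S, hS⟩ : ∃ S : ℝ, S = Sz J K m N := ⟨_, rfl⟩
  have hb0 : 1 ≤ b := by rw [hb]; exact_mod_cast Fintype.card_pos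
  have hc0 : 1 ≤ c := by rw [hc']; exact_mod_cast Fintype.card_pos
  have hO0 : 0 < O := by rw [hO]; exact_mod_cast Fintype.card_pos
  have hS0 : 0 < S := by rw [hS]; unfold Sz; positivity
  have hcX : (Fintype.card (J → Fin m) : ℝ) ^ 2 * (Fintype.card (J × K → Fin N) : ℝ) *
      (Fintype.card (J × K → Fin N) * Fintype.card (K → Fin (m + N))) = S := by
    rw [hS]; unfold Sz; ring
  -- the first plant
  have stepA : ∀ ω, T5 (fun x x' y y' u => ∑ p : J × K,
      (ff (V ω) x x' y y' (Function.update u p.2 (pz (x p.1) (y p))) - ff (V ω) x x' y y' u)) ≤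
      S * (b * c) * κ ω := by
    intro ω
    unfold T5
    have h3 : ∀ x x', ∑ y, ∑ y', ∑ u, ∑ p : J × K,
        (ff (V ω) x x' y y' (Function.update u p.2 (pz (x p.1) (y p))) - ff (V ω) x x' y y' u) ≤
        (Fintype.card (J × K → Fin N) : ℝ) * (Fintype.card (J × K → Fin N) *
          Fintype.card (K → Fin (m + N)) * (Fintype.card J * Fintype.card K) * κ ω) := by
      intro x x'
      rw [sum_comm]
      refine (sum_le_sum fun y' _ => hA ω x x' y').trans (le_of_eq ?_)
      rw [sum_const, card_univ, nsmul_eq_mul]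
    refine (sum_le_sum fun x _ => sum_le_sum fun x' _ => h3 x x').trans (le_of_eq ?_)
    simp_rw [sum_const, card_univ, nsmul_eq_mul]
    rw [← hcX, hb, hc']
    ring
  -- the second plant
  have stepB : ∀ ω (q : J × K), T5 (fun x x' y y' u => ∑ p : J × K,
      (ff (V ω) x x' y y' (Function.update (Function.update u p.2 (pz (x' p.1) (y' p))) q.2
        (pz (x q.1) (y q))) - ff (V ω) x x' y y' (Function.update u q.2 (pz (x q.1) (y q))))) ≤
      S * (b * c) * κ ω := by
    intro ω q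
    unfold T5
    refine (sum_le_sum fun x _ => sum_le_sum fun x' _ => sum_le_sum fun y _ =>
      hB ω x x' y q).trans (le_of_eq ?_)
    simp_rw [sum_const, card_univ, nsmul_eq_mul]
    rw [← hcX, hb, hc']
    ring
  -- number of pairs
  have hpairs : ∀ q : J × K, ∑ p : J × K, ind (p.2 ≠ q.2) = b * (c - 1) := by
    intro q
    have h3 : ∑ k : K, ind (k ≠ q.2) = c - 1 := by
      rw [← add_sum_erase univ _ (mem_univ q.2), ind_of_not (fun h => h rfl), zero_add,
        sum_congr rfl fun k hk => ind_of (ne_of_mem_erase hk), sum_const,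
        card_erase_of_mem (mem_univ q.2), card_univ, nsmul_eq_mul, mul_one,
        Nat.cast_sub (Fintype.card_pos), Nat.cast_one, hc']
    rw [Fintype.sum_prod_type]
    simp only
    rw [sum_congr rfl fun j _ => h3, sum_const, card_univ, nsmul_eq_mul, hb]
  -- one circuit
  have hone : ∀ ω, ∑ q : J × K, ∑ p : J × K, ind (p.2 ≠ q.2) *
      T5 (fun x x' y y' u => ff (V ω) x x' y y' (plant12 x x' y y' u q.1 q.2 p.1 p.2)) ≤
      (b * c) * (b * (c - 1)) * (S / 2) + 2 * ((b * c) * (S * (b * c) * κ ω)) := by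
    intro ω
    have e1 : ∀ q : J × K, ∑ p : J × K, ind (p.2 ≠ q.2) *
        T5 (fun x x' y y' u => ff (V ω) x x' y y' (plant12 x x' y y' u q.1 q.2 p.1 p.2)) ≤
        S * (b * c) * κ ω + (b * (c - 1)) *
          T5 (fun x x' y y' u => ff (V ω) x x' y y' (Function.update u q.2 (pz (x q.1) (y q)))) := by
      intro q
      have e2 := stepB ω q
      rw [T5_sum] at e2
      have e3 : ∀ p : J × K, T5 (fun x x' y y' u =>
          (ff (V ω) x x' y y' (Function.update (Function.update u p.2 (pz (x' p.1) (y' p))) q.2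
          (pz (x q.1) (y q))) -
          ff (V ω) x x' y y' (Function.update u q.2 (pz (x q.1) (y q))))) =
          ind (p.2 ≠ q.2) * (T5 (fun x x' y y' u =>
            ff (V ω) x x' y y' (plant12 x x' y y' u q.1 q.2 p.1 p.2)) -
          T5 (fun x x' y y' u =>
            ff (V ω) x x' y y' (Function.update u q.2 (pz (x q.1) (y q))))) := by
        intro p
        by_cases hp : p.2 ≠ q.2
        · rw [ind_of hp, one_mul, ← T5_sub]
          congr 1
          funext x x' y y' u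
          unfold plant12
          rw [Function.update_comm hp]
        · rw [ind_of_not hp, zero_mul]
          have hp' : p.2 = q.2 := not_not.1 hp
          have e4 : T5 (fun (_ _ : J → Fin m) (_ _ : J × K → Fin N) (_ : K → Fin (m + N)) =>
              (0 : ℝ)) = 0 := by rw [T5_const, mul_zero]
          rw [← e4]
          congr 1
          funext x x' y y' u
          rw [hp', Function.update_idem, sub_self]
      rw [sum_congr rfl fun p _ => e3 p] at e2
      simp_rw [mul_sub, sum_sub_distrib, ← sum_mul] at e2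
      rw [hpairs q] at e2
      linarith
    refine (sum_le_sum fun q _ => e1 q).trans ?_
    rw [sum_add_distrib, sum_const, card_univ, nsmul_eq_mul, Fintype.card_prod, ← mul_sum]
    push_cast
    rw [← hb, ← hc']
    have e5 := stepA ω
    rw [T5_sum] at e5
    simp_rw [T5_sub] at e5
    rw [sum_sub_distrib, sum_const, card_univ, nsmul_eq_mul, Fintype.card_prod] at e5
    push_cast at e5
    rw [← hb, ← hc'] at e5
    have e6 := T5_ff_le (V ω)
    rw [← hS] at e6
    have e7 : T5 (fun x x' y y' u => ff (V ω) x x' y y' u) = T5 (ff (V ω)) := rfl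
    rw [e7] at e5
    have e8 : 0 ≤ b * (c - 1) := mul_nonneg (by linarith) (by linarith)
    have e9 : ∑ q : J × K, T5 (fun x x' y y' u =>
        ff (V ω) x x' y y' (Function.update u q.2 (pz (x q.1) (y q)))) ≤
        b * c * (S / 2) + S * (b * c) * κ ω := by
      have : b * c * T5 (ff (V ω)) ≤ b * c * (S / 2) :=
        mul_le_mul_of_nonneg_left e6 (by positivity)
      linarith
    have e10 := mul_le_mul_of_nonneg_left e9 e8
    have e11 : b * (c - 1) * (S * (b * c) * κ ω) ≤ b * c * (S * (b * c) * κ ω) := by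
      refine mul_le_mul_of_nonneg_right ?_ ?_
      · nlinarith
      · have := hκ ω
        positivity
    linarith
  -- all circuits
  have hall : (b * c) * (b * (c - 1)) * (O * S * (4 / 5 - 2 * β)) ≤
      ∑ ω, ∑ q : J × K, ∑ p : J × K, ind (p.2 ≠ q.2) *
      T5 (fun x x' y y' u => ff (V ω) x x' y y' (plant12 x x' y y' u q.1 q.2 p.1 p.2)) := by
    rw [sum_comm]
    have e1 : ∀ q : J × K, (b * (c - 1)) * (O * S * (4 / 5 - 2 * β)) ≤
        ∑ ω, ∑ p : J × K, ind (p.2 ≠ q.2) *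
      T5 (fun x x' y y' u => ff (V ω) x x' y y' (plant12 x x' y y' u q.1 q.2 p.1 p.2)) := by
      intro q
      rw [← hpairs q, sum_mul, sum_comm]
      refine sum_le_sum fun p _ => ?_
      rw [← mul_sum]
      by_cases hp : p.2 ≠ q.2
      · rw [ind_of hp, one_mul, one_mul, hO, hS]
        exact planted_ge V hc β q.1 q.2 p.1 p.2 hp (h1 _ _ _ _ hp) (h2 _ _ _ _ hp)
      · rw [ind_of_not hp, zero_mul, zero_mul]
    refine le_trans (le_of_eq ?_) (sum_le_sum fun q _ => e1 q)
    rw [sum_const, card_univ, nsmul_eq_mul, Fintype.card_prod]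
    push_cast
    rw [← hb, ← hc']
    ring
  have hfin := hall.trans (sum_le_sum fun ω _ => hone ω)
  rw [sum_add_distrib, sum_const, card_univ, nsmul_eq_mul, ← hO, ← mul_sum, ← mul_sum,
    ← mul_sum] at hfin
  have hp : 0 < O * S * ((b * c) * (b * c)) := by positivity
  have hs : (∑ ω, κ ω) = O * ((∑ ω, κ ω) / O) := by field_simp
  rw [← hO, ← hc']
  refine le_of_mul_le_mul_left ?_ hp
  have h5 : O * S * (b * c * (b * c)) * ((1 - 1 / c) * (3 / 10 - 2 * β)) =
      (b * c) * (b * (c - 1)) * (O * S * (3 / 10 - 2 * β)) := by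
    field_simp
  rw [h5]
  rw [hs] at hfin
  linarith

end Pool.Agent.Helper5.R4
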