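import Mathlib
import Pool.Agent.Helper5.R4.Path
import Pool.Agent.Helper71.R4.TC

/-!
# The two steps from the two-way lemma
-/

set_option autoImplicit false

namespace Pool.Agent.Helper5.R4

open Finset Pool.Agent.Helper53.R4 Pool.Agent.Helper71.R4
open Pool.Agent.Helper5.RV (ind ind_nonneg ind_le_one ind_of ind_of_not ind_mono)

variable {J K : Type} [Fintype J] [DecidableEq J] [Fintype K] [DecidableEq K] {m N : ℕ}

omit [Fintype J] [DecidableEq J] [Fintype K] [DecidableEq K] in
theorem tc_ddA {A B : ℕ} {V : (J → Fin m) → (J × K → Fin N) → (K → Fin (m + N)) → ℝ}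
    (hV : NF m N A B V) (x x' : J → Fin m) (y' : J × K → Fin N) :
    TC (A + A) (B + B) (fun u y => dd V x x' y y' u) := by
  obtain ⟨E₁, E₂, E₃, C, hC, hV⟩ := hV
  have h := tc_add_vote (fun u => -C x y' u + C x' y' u)
    (fun y => E₁ x y - E₁ x' y - E₁ x y' + E₁ x' y') (tc_sub (hC x) (hC x'))
  have e : (fun u y => dd V x x' y y' u) = fun u y => (-C x y' u + C x' y' u) +
      (E₁ x y - E₁ x' y - E₁ x y' + E₁ x' y') + (C x y u - C x' y u) := by
    funext u y
    unfold dd
    rw [hV, hV, hV, hV]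
    ring
  rw [e]
  exact h

omit [Fintype J] [DecidableEq J] [Fintype K] [DecidableEq K] in
theorem tc_ddB {A B : ℕ} {V : (J → Fin m) → (J × K → Fin N) → (K → Fin (m + N)) → ℝ}
    (hV : NF m N A B V) (x x' : J → Fin m) (y : J × K → Fin N)
    (f : (K → Fin (m + N)) → (K → Fin (m + N))) :
    TC (A + A) (B + B) (fun u y' => dd V x x' y y' (f u)) := by
  obtain ⟨E₁, E₂, E₃, C, hC, hV⟩ := hV
  have h := tc_add_vote (fun u => C x y (f u) - C x' y (f u))
    (fun y' => E₁ x y - E₁ x' y - E₁ x y' + E₁ x' y')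
    (tc_sub (tc_comp f (fun y' => y') (hC x')) (tc_comp f (fun y' => y') (hC x)))
  have e : (fun u y' => dd V x x' y y' (f u)) = fun u y' => (C x y (f u) - C x' y (f u)) +
      (E₁ x y - E₁ x' y - E₁ x y' + E₁ x' y') + (C x' y' (f u) - C x y' (f u)) := by
    funext u y'
    unfold dd
    rw [hV, hV, hV, hV]
    ring
  rw [e]
  exact h

/-- the planted values in the notation of the frame -/
theorem of_two_way [Nonempty J] [Nonempty K] (hN : 0 < N) (π : J → Fin N → Fin (m + N))
    (κ : ℝ) (F : (K → Fin (m + N)) → (J × K → Fin N) → ℝ)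
    (h : planted π (fun u y => 0 < F u y) - prob (fun u y => 0 < F u y) ≤ κ) :
    ∑ y, ∑ u, ∑ p : J × K, (ind (0 < F (Function.update u p.2 (π p.1 (y p))) y) -
      ind (0 < F u y)) ≤
      Fintype.card (J × K → Fin N) * Fintype.card (K → Fin (m + N)) *
        (Fintype.card J * Fintype.card K) * κ := by
  have : Nonempty (Fin N) := ⟨⟨0, hN⟩⟩
  have : Nonempty (Fin (m + N)) := ⟨⟨0, by omega⟩⟩
  have hU : (0 : ℝ) < Fintype.card (K → Fin (m + N)) := by exact_mod_cast Fintype.card_pos
  have hY : (0 : ℝ) < Fintype.card (J × K → Fin N) := by exact_mod_cast Fintype.card_pos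
  have hJ : (0 : ℝ) < Fintype.card J := by exact_mod_cast Fintype.card_pos
  have hK : (0 : ℝ) < Fintype.card K := by exact_mod_cast Fintype.card_pos
  unfold planted prob at h
  have h1 := mul_le_mul_of_nonneg_left h
    (by positivity : 0 ≤ (Fintype.card (J × K → Fin N) : ℝ) * Fintype.card (K → Fin (m + N)) *
        (Fintype.card J * Fintype.card K))
  refine le_trans (le_of_eq ?_) h1
  simp_rw [sum_sub_distrib]
  rw [sum_comm]
  rw [sum_comm (s := (univ : Finset (J × K → Fin N)))
    (f := fun y u => ∑ _p : J × K, ind (0 < F u y))]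
  simp_rw [sum_const, card_univ, nsmul_eq_mul, ← mul_sum]
  rw [Fintype.card_prod]
  push_cast
  field_simp

theorem stepA [Nonempty J] [Nonempty K] (hN : 0 < N) {A B : ℕ} (κ : ℝ)
    (h2 : ∀ (x : J → Fin m) (F : (K → Fin (m + N)) → (J × K → Fin N) → ℝ),
      TC (A + A) (B + B) F → planted (fun j v => pz (x j) v) (fun u y => 0 < F u y) -
        prob (fun u y => 0 < F u y) ≤ κ)
    {V : (J → Fin m) → (J × K → Fin N) → (K → Fin (m + N)) → ℝ} (hV : NF m N A B V)
    (x x' : J → Fin m) (y' : J × K → Fin N) : ∑ y, ∑ u, ∑ p : J × K,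
      (ff V x x' y y' (Function.update u p.2 (pz (x p.1) (y p))) - ff V x x' y y' u) ≤
      Fintype.card (J × K → Fin N) * Fintype.card (K → Fin (m + N)) *
        (Fintype.card J * Fintype.card K) * κ :=
  of_two_way hN (fun j v => pz (x j) v) κ (fun u y => dd V x x' y y' u)
    (h2 x _ (tc_ddA hV x x' y'))

theorem stepB [Nonempty J] [Nonempty K] (hN : 0 < N) {A B : ℕ} (κ : ℝ)
    (h2 : ∀ (x : J → Fin m) (F : (K → Fin (m + N)) → (J × K → Fin N) → ℝ),
      TC (A + A) (B + B) F → planted (fun j v => pz (x j) v) (fun u y => 0 < F u y) -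
        prob (fun u y => 0 < F u y) ≤ κ)
    {V : (J → Fin m) → (J × K → Fin N) → (K → Fin (m + N)) → ℝ} (hV : NF m N A B V)
    (x x' : J → Fin m) (y : J × K → Fin N) (q : J × K) : ∑ y', ∑ u, ∑ p : J × K,
      (ff V x x' y y' (Function.update (Function.update u p.2 (pz (x' p.1) (y' p))) q.2
        (pz (x q.1) (y q))) - ff V x x' y y' (Function.update u q.2 (pz (x q.1) (y q)))) ≤
      Fintype.card (J × K → Fin N) * Fintype.card (K → Fin (m + N)) *
        (Fintype.card J * Fintype.card K) * κ :=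
  of_two_way hN (fun j v => pz (x' j) v) κ
    (fun u y' => dd V x x' y y' (Function.update u q.2 (pz (x q.1) (y q))))
    (h2 x' _ (tc_ddB hV x x' y (fun u => Function.update u q.2 (pz (x q.1) (y q)))))

end Pool.Agent.Helper5.R4
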