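import Mathlib
import Pool.Agent.Helper5.R4.Defs
import Pool.Agent.Helper8.UV.Defs

/-!
# The statement
-/

set_option autoImplicit false

namespace Pool.Agent.Helper5.R4

open Pool.Agent.Helper22.ETModel Pool.Agent.Helper8.VT Pool.Agent.Helper8.UV

def LowerStatement (C : ℝ) : Prop :=
  ∀ (n : ℕ) (c : Fin n), (c : ℕ) % 3 = 0 →
    ∀ (Ω ι : Type) [Fintype Ω] [Nonempty Ω] [Fintype ι] (H : Ω → ι → Inst n → ℝ)
      (a b : Ω → ι → ℕ),
      (∀ ω r, IsFree c (H ω r) ∨ IsConv c (a ω r) (b ω r) (H ω r)) →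
      (∀ I : Inst n, I.Valid → Tripartite I → Decides H I) →
      Real.exp (-(C * ((∑ ω, ∑ r, (a ω r : ℝ)) / Fintype.card Ω) / n)) +
        Real.exp (-(C * ((∑ ω, ∑ r, (b ω r : ℝ)) / Fintype.card Ω) / (n : ℝ) ^ 2)) ≤ 1 + C / n

end Pool.Agent.Helper5.R4
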