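import Mathlib
import Pool.Agent.Helper5.R4.Stmt
import Pool.Agent.Helper5.R4.Steps
import Pool.Agent.Helper5.RV.Lower
import Pool.Agent.Helper71.R4.Voter

/-!
# The lower bound for one vertex
-/

set_option autoImplicit false

namespace Pool.Agent.Helper5.R4

open Finset Pool.Agent.Helper22.ETModel Pool.Agent.Helper8.VT Pool.Agent.Helper8.UV
open Pool.Agent.Helper53.R4 Pool.Agent.Helper71.R4
open Pool.Agent.Helper5.RV (ind ind_nonneg ind_le_one ind_of ind_of_not ind_mono Cls card_cls)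

/-- wrong circuits -/
theorem sum_wr {n m N : ℕ} (c : Fin n) (hc : (c : ℕ) % 3 = 0) {Ω ι : Type} [Fintype Ω]
    [Fintype ι] (H : Ω → ι → Inst n → ℝ) (hm : m + N ≤ n ^ 300)
    (hdec : ∀ I : Inst n, I.Valid → Tripartite I → Decides H I)
    (x : Cls n 1 → Fin m) (y : Cls n 1 × Cls n 2 → Fin N) (u : Cls n 2 → Fin (m + N)) :
    ∑ ω, wr (fun x y u => ∑ r, H ω r (mk1 c x y u)) x y u ≤ (Fintype.card Ω : ℝ) / 20 := by
  classical
  have h1 := hdec (mk1 c x y u) (mk1_valid c hc hm x y u) (mk1_tripartite c x y u)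
  unfold Decides at h1
  have h2 : ∑ ω, wr (fun x y u => ∑ r, H ω r (mk1 c x y u)) x y u =
      ((univ.filter fun ω : Ω =>
        ¬ (0 < ∑ r, H ω r (mk1 c x y u) ↔ (mk1 c x y u).Yes)).card : ℝ) := by
    rw [Finset.card_filter]
    push_cast
    refine sum_congr rfl fun ω _ => ?_
    unfold wr ind
    rw [mk1_yes c hc x y u]
    by_cases h : 0 < ∑ r, H ω r (mk1 c x y u) ↔ YesR x y u
    · rw [if_neg (not_not.2 h), if_neg (not_not.2 h)]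
    · rw [if_pos h, if_pos h]
  have h3 : (univ.filter fun ω : Ω =>
        (0 < ∑ r, H ω r (mk1 c x y u) ↔ (mk1 c x y u).Yes)).card +
      (univ.filter fun ω : Ω =>
        ¬ (0 < ∑ r, H ω r (mk1 c x y u) ↔ (mk1 c x y u).Yes)).card = Fintype.card Ω := by
    rw [card_filter_add_card_filter_not, card_univ]
  rw [h2]
  have h4 : 20 * (univ.filter fun ω : Ω =>
      ¬ (0 < ∑ r, H ω r (mk1 c x y u) ↔ (mk1 c x y u).Yes)).card ≤ Fintype.card Ω := by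
    have h5 : 19 * Fintype.card Ω ≤ 20 *
        (univ.filter fun ω : Ω =>
          (0 < ∑ r, H ω r (mk1 c x y u) ↔ (mk1 c x y u).Yes)).card := by
      refine h1.trans (le_of_eq ?_)
      congr 2
    omega
  have h6 : (20 : ℝ) * ((univ.filter fun ω : Ω =>
      ¬ (0 < ∑ r, H ω r (mk1 c x y u) ↔ (mk1 c x y u).Yes)).card : ℝ) ≤ Fintype.card Ω := by
    exact_mod_cast h4
  linarith

/-- the inequality for given constants of the rectangle lemma -/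
theorem given {n : ℕ} (hn : 3 ≤ n) (c : Fin n) (hc : (c : ℕ) % 3 = 0)
    (h2w : ∀ (x : Cls n 1 → Fin (n ^ 4)) (e0 c1 c2 : ℝ) (q a b : ℕ)
      (F : (Cls n 2 → Fin (n ^ 4 + n ^ 8)) → (Cls n 1 × Cls n 2 → Fin (n ^ 8)) → ℝ), 3 ≤ q →
      0 ≤ e0 → 0 ≤ c1 → 0 ≤ c2 →
      RectGood (Cls n 1) (Cls n 2) (fun j (v : Fin (n ^ 8)) => pz (x j) v) e0 c1 c2 → TC a b F →
      planted (fun j v => pz (x j) v) (fun u y => 0 < F u y) -
        prob (fun u y => 0 < F u y) ≤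
        e0 + 1 / q + c1 * (a * Real.log 2 + 1) + c2 * (b * Real.log 2 + Real.log q))
    (h1 : ∀ (j₁ : Cls n 1) (k₁ : Cls n 2) (j₂ : Cls n 1) (k₂ : Cls n 2), k₂ ≠ k₁ →
      T5 (m := n ^ 4) (N := n ^ 8) (bad₁ j₁ k₁ j₂ k₂) ≤
      (Fintype.card (Cls n 1) * Fintype.card (Cls n 2) / (n : ℝ) ^ 4) *
        Sz (Cls n 1) (Cls n 2) (n ^ 4) (n ^ 8))
    (h2 : ∀ (j₁ : Cls n 1) (k₁ : Cls n 2) (j₂ : Cls n 1) (k₂ : Cls n 2), k₂ ≠ k₁ →
      T5 (m := n ^ 4) (N := n ^ 8) (bad₂ j₁ k₁ j₂ k₂) ≤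
      (Fintype.card (Cls n 1) * Fintype.card (Cls n 2) / (n : ℝ) ^ 4) *
        Sz (Cls n 1) (Cls n 2) (n ^ 4) (n ^ 8))
    {Ω ι : Type} [Fintype Ω] [Nonempty Ω] [Fintype ι] (H : Ω → ι → Inst n → ℝ)
    (a b : Ω → ι → ℕ) (hH : ∀ ω r, IsFree c (H ω r) ∨ IsConv c (a ω r) (b ω r) (H ω r))
    (hdec : ∀ I : Inst n, I.Valid → Tripartite I → Decides H I)
    (e0 c1 c2 : ℝ) (he : 0 ≤ e0) (hc1 : 0 ≤ c1) (hc2 : 0 ≤ c2)
    (hR : ∀ x : Cls n 1 → Fin (n ^ 4), RectGood (Cls n 1) (Cls n 2)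
      (fun j (v : Fin (n ^ 8)) => (pz (x j) v : Fin (n ^ 4 + n ^ 8))) e0 c1 c2)
    (q : ℕ) (hq : 3 ≤ q) :
    (1 - 1 / (Fintype.card (Cls n 2) : ℝ)) * (3 / 10 - 2 *
      (Fintype.card (Cls n 1) * Fintype.card (Cls n 2) / (n : ℝ) ^ 4)) ≤
    2 * (e0 + 1 / q + c1 * (2 * ((∑ ω, ∑ r, (a ω r : ℝ)) / Fintype.card Ω) * Real.log 2 + 1) +
      c2 * (2 * ((∑ ω, ∑ r, (b ω r : ℝ)) / Fintype.card Ω) * Real.log 2 + Real.log q)) := by
  obtain ⟨cb, _⟩ := card_cls n 1 (by norm_num)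
  obtain ⟨cc, _⟩ := card_cls n 2 (by norm_num)
  have : Nonempty (Cls n 1) := Fintype.card_pos_iff.1 (by omega)
  have : Nonempty (Cls n 2) := Fintype.card_pos_iff.1 (by omega)
  have hm0 : 0 < n ^ 4 := by positivity
  have hN0 : 0 < n ^ 8 := by positivity
  have hmN : n ^ 4 + n ^ 8 ≤ n ^ 300 := by
    have e1 : n ^ 4 ≤ n ^ 8 := Nat.pow_le_pow_right (by omega) (by norm_num)
    have e2 : 2 * n ^ 8 ≤ n ^ 9 := by
      rw [show (9 : ℕ) = 8 + 1 from rfl, pow_succ, mul_comm]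
      exact Nat.mul_le_mul_left _ (by omega)
    have e3 : n ^ 9 ≤ n ^ 300 := Nat.pow_le_pow_right (by omega) (by norm_num)
    omega
  let A : Ω → ℕ := fun ω => ∑ r, a ω r
  let B : Ω → ℕ := fun ω => ∑ r, b ω r
  have hNF : ∀ ω, NF (n ^ 4) (n ^ 8) (A ω) (B ω)
      (fun x y u => ∑ r, H ω r (mk1 (n := n) c x y u)) := by
    intro ω
    refine nf_sum univ (a ω) (b ω) _ fun r _ => ?_
    rcases hH ω r with h | h
    · exact nf_mono (nf_free c hc hm0 hN0 hmN _ h) (Nat.zero_le _) (Nat.zero_le _)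
    · exact nf_conv c hc hm0 hN0 hmN _ h
  let κ : Ω → ℝ := fun ω => e0 + 1 / q + c1 * (((A ω + A ω : ℕ) : ℝ) * Real.log 2 + 1) +
    c2 * (((B ω + B ω : ℕ) : ℝ) * Real.log 2 + Real.log q)
  have hlog2 : 0 ≤ Real.log 2 := Real.log_nonneg (by norm_num)
  have hlogq : 0 ≤ Real.log q := Real.log_nonneg (by exact_mod_cast (by omega : 1 ≤ q))
  have hκ : ∀ ω, 0 ≤ κ ω := by
    intro ω
    have : 0 ≤ (1 : ℝ) / q := by positivity
    simp only [κ]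
    positivity
  have h2w' : ∀ ω (x : Cls n 1 → Fin (n ^ 4))
      (F : (Cls n 2 → Fin (n ^ 4 + n ^ 8)) → (Cls n 1 × Cls n 2 → Fin (n ^ 8)) → ℝ),
      TC (A ω + A ω) (B ω + B ω) F → planted (fun j v => pz (x j) v) (fun u y => 0 < F u y) -
        prob (fun u y => 0 < F u y) ≤ κ ω :=
    fun ω x F hF => h2w x e0 c1 c2 q _ _ F hq he hc1 hc2 (hR x) hF
  have hcore := core hm0 hN0 (fun ω x y u => ∑ r, H ω r (mk1 (n := n) c x y u))
    (sum_wr c hc H hmN hdec) _ h1 h2 κ hκ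
    (fun ω x x' y' => stepA hN0 (κ ω) (h2w' ω) (hNF ω) x x' y')
    (fun ω x x' y p => stepB hN0 (κ ω) (h2w' ω) (hNF ω) x x' y p)
  refine hcore.trans (le_of_eq ?_)
  have hΩ : (Fintype.card Ω : ℝ) ≠ 0 := by exact_mod_cast Fintype.card_ne_zero
  have e1 : ∑ ω, κ ω = (Fintype.card Ω : ℝ) * (e0 + 1 / q + c1 + c2 * Real.log q) +
      c1 * (2 * (∑ ω, ∑ r, (a ω r : ℝ)) * Real.log 2) +
      c2 * (2 * (∑ ω, ∑ r, (b ω r : ℝ)) * Real.log 2) := by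
    have e2 : ∀ ω, κ ω = (e0 + 1 / q + c1 + c2 * Real.log q) +
        c1 * (2 * (∑ r, (a ω r : ℝ)) * Real.log 2) + c2 * (2 * (∑ r, (b ω r : ℝ)) * Real.log 2) := by
      intro ω
      simp only [κ, A, B]
      push_cast
      ring
    rw [sum_congr rfl fun ω _ => e2 ω, sum_add_distrib, sum_add_distrib, sum_const, card_univ,
      nsmul_eq_mul, ← mul_sum, ← mul_sum, ← sum_mul, ← sum_mul, ← mul_sum, ← mul_sum]
  rw [e1]
  field_simp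
  ring

/-- the assembly -/
theorem lower_main (C : ℝ) (hC : 2 ≤ C)
    (h2w : ∀ {n : ℕ}, 3 ≤ n → ∀ (x : Cls n 1 → Fin (n ^ 4)) (e0 c1 c2 : ℝ) (q a b : ℕ)
      (F : (Cls n 2 → Fin (n ^ 4 + n ^ 8)) → (Cls n 1 × Cls n 2 → Fin (n ^ 8)) → ℝ), 3 ≤ q →
      0 ≤ e0 → 0 ≤ c1 → 0 ≤ c2 →
      RectGood (Cls n 1) (Cls n 2) (fun j (v : Fin (n ^ 8)) => pz (x j) v) e0 c1 c2 → TC a b F →
      planted (fun j v => pz (x j) v) (fun u y => 0 < F u y) -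
        prob (fun u y => 0 < F u y) ≤
        e0 + 1 / q + c1 * (a * Real.log 2 + 1) + c2 * (b * Real.log 2 + Real.log q))
    (h1 : ∀ {n : ℕ}, 3 ≤ n → ∀ (j₁ : Cls n 1) (k₁ : Cls n 2) (j₂ : Cls n 1) (k₂ : Cls n 2), k₂ ≠ k₁ →
      T5 (m := n ^ 4) (N := n ^ 8) (bad₁ j₁ k₁ j₂ k₂) ≤
      (Fintype.card (Cls n 1) * Fintype.card (Cls n 2) / (n : ℝ) ^ 4) *
        Sz (Cls n 1) (Cls n 2) (n ^ 4) (n ^ 8))
    (h2 : ∀ {n : ℕ}, 3 ≤ n → ∀ (j₁ : Cls n 1) (k₁ : Cls n 2) (j₂ : Cls n 1) (k₂ : Cls n 2), k₂ ≠ k₁ →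
      T5 (m := n ^ 4) (N := n ^ 8) (bad₂ j₁ k₁ j₂ k₂) ≤
      (Fintype.card (Cls n 1) * Fintype.card (Cls n 2) / (n : ℝ) ^ 4) *
        Sz (Cls n 1) (Cls n 2) (n ^ 4) (n ^ 8))
    (hRL : ∀ {n : ℕ} (x : Cls n 1 → Fin (n ^ 4)) (l L : ℝ), 3 ≤ n → 0 < l → l ≤ 1 →
      Real.exp 1 < L → RectGood (Cls n 1) (Cls n 2)
      (fun j (v : Fin (n ^ 8)) => (pz (x j) v : Fin (n ^ 4 + n ^ 8)))
      (l / 2 + L * (1 / (n : ℝ) ^ 4))
      (1 / (Fintype.card (Cls n 2) * (Real.log L - 1)))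
      (L / (l * (Fintype.card (Cls n 1) * Fintype.card (Cls n 2)))))
    (hRT : ∀ {n : ℕ} (x : Cls n 1 → Fin (n ^ 4)) (θ ε : ℝ), 3 ≤ n → 0 < θ → 0 < ε → ε ≤ 1 →
      RectGood (Cls n 1) (Cls n 2)
      (fun j (v : Fin (n ^ 8)) => (pz (x j) v : Fin (n ^ 4 + n ^ 8))) ε
      (8 * Real.exp θ / (θ * ε ^ 2 * Fintype.card (Cls n 2)))
      (1 / (θ * (Fintype.card (Cls n 1) * Fintype.card (Cls n 2)))))
    (hnum : ∀ (n j k : ℕ), 3 ≤ n → n ≤ 3 * j + 2 → n ≤ 3 * k + 2 → j ≤ n → k ≤ n →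
      ∀ (A B : ℝ), 0 ≤ A → 0 ≤ B →
      (∀ (q : ℕ) (l L : ℝ), 3 ≤ q → 0 < l → l ≤ 1 → Real.exp 1 < L →
        (1 - 1 / (k : ℝ)) * (3 / 10 - 2 * (j * k / (n : ℝ) ^ 4)) ≤
        2 * ((l / 2 + L * (1 / (n : ℝ) ^ 4)) + 1 / q +
          1 / (k * (Real.log L - 1)) * (2 * A * Real.log 2 + 1) +
          L / (l * (j * k)) * (2 * B * Real.log 2 + Real.log q))) →
      (∀ (q : ℕ) (θ ε : ℝ), 3 ≤ q → 0 < θ → 0 < ε → ε ≤ 1 →
        (1 - 1 / (k : ℝ)) * (3 / 10 - 2 * (j * k / (n : ℝ) ^ 4)) ≤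
        2 * (ε + 1 / q + 8 * Real.exp θ / (θ * ε ^ 2 * k) * (2 * A * Real.log 2 + 1) +
          1 / (θ * (j * k)) * (2 * B * Real.log 2 + Real.log q))) →
      Real.exp (-(C * A / n)) + Real.exp (-(C * B / (n : ℝ) ^ 2)) ≤ 1 + C / n) :
    LowerStatement C := by
  intro n c hc Ω ι _ _ _ H a b hH hdec
  have hA0 : 0 ≤ (∑ ω, ∑ r, (a ω r : ℝ)) / Fintype.card Ω := by positivity
  have hB0 : 0 ≤ (∑ ω, ∑ r, (b ω r : ℝ)) / Fintype.card Ω := by positivity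
  have hn1 : 1 ≤ n := by have := c.isLt; omega
  have hn0 : (0 : ℝ) < n := by exact_mod_cast hn1
  by_cases hn : 3 ≤ n
  swap
  · have e1 : Real.exp (-(C * ((∑ ω, ∑ r, (a ω r : ℝ)) / Fintype.card Ω) / n)) ≤ 1 := by
      rw [Real.exp_le_one_iff]
      have : 0 ≤ C * ((∑ ω, ∑ r, (a ω r : ℝ)) / Fintype.card Ω) / n := by positivity
      linarith
    have e2 : Real.exp (-(C * ((∑ ω, ∑ r, (b ω r : ℝ)) / Fintype.card Ω) / (n : ℝ) ^ 2)) ≤ 1 := by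
      rw [Real.exp_le_one_iff]
      have : 0 ≤ C * ((∑ ω, ∑ r, (b ω r : ℝ)) / Fintype.card Ω) / (n : ℝ) ^ 2 := by positivity
      linarith
    have e3 : 1 ≤ C / n := by
      rw [le_div_iff₀ hn0, one_mul]
      have : (n : ℝ) ≤ 2 := by exact_mod_cast (by omega : n ≤ 2)
      linarith
    linarith
  obtain ⟨cb, cb'⟩ := card_cls n 1 (by norm_num)
  obtain ⟨cc, cc'⟩ := card_cls n 2 (by norm_num)
  have hJ : (0 : ℝ) < Fintype.card (Cls n 1) := by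
    exact_mod_cast (by omega : 0 < Fintype.card (Cls n 1))
  have hK : (0 : ℝ) < Fintype.card (Cls n 2) := by
    exact_mod_cast (by omega : 0 < Fintype.card (Cls n 2))
  refine hnum n (Fintype.card (Cls n 1)) (Fintype.card (Cls n 2)) hn cb cc cb' cc' _ _ hA0 hB0
    (fun q l L hq hl hl1 hL => ?_) (fun q θ ε hq hθ hε hε1 => ?_)
  · have hlogL : 0 < Real.log L - 1 := by
      have : 1 < Real.log L := by
        rw [Real.lt_log_iff_exp_lt (lt_trans (Real.exp_pos 1) hL)]; exact hL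
      linarith
    have hL0 : 0 < L := lt_trans (Real.exp_pos 1) hL
    exact given hn c hc (h2w hn) (h1 hn) (h2 hn) H a b hH hdec _ _ _ (by positivity) (by positivity)
      (by positivity) (fun x => hRL x l L hn hl hl1 hL) q hq
  · exact given hn c hc (h2w hn) (h1 hn) (h2 hn) H a b hH hdec _ _ _ hε.le (by positivity)
      (by positivity) (fun x => hRT x θ ε hn hθ hε hε1) q hq

end Pool.Agent.Helper5.R4
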