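import Mathlib
import Pool.Agent.Helper5.R4.Stmt

/-!
# All vertices together
-/

set_option autoImplicit false

namespace Pool.Agent.Helper5.R4

open Finset Pool.Agent.Helper22.ETModel Pool.Agent.Helper8.VT Pool.Agent.Helper8.UV

/-- the statement for all vertices together -/
def MultiStatement (C : ℝ) : Prop :=
  ∀ (n : ℕ), 1 ≤ n → ∀ (Ω ι : Type) [Fintype Ω] [Nonempty Ω] [Fintype ι]
    (H : Ω → ι → Inst n → ℝ) (a b : Ω → ι → Fin n → ℕ),
    (∀ ω r (c : Fin n), (c : ℕ) % 3 = 0 →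
      IsFree c (H ω r) ∨ IsConv c (a ω r c) (b ω r c) (H ω r)) →
    (∀ I : Inst n, I.Valid → Tripartite I → Decides H I) →
    Real.exp (-(C * ((∑ ω, ∑ r, ∑ c, (a ω r c : ℝ)) / Fintype.card Ω) / (n : ℝ) ^ 2)) +
      Real.exp (-(C * ((∑ ω, ∑ r, ∑ c, (b ω r c : ℝ)) / Fintype.card Ω) / (n : ℝ) ^ 3)) ≤
        1 + C / n

/-- the convexity of the exponential function -/
theorem jensen {α : Type} (S : Finset α) (f : α → ℝ) (T : ℝ) (hT : ∑ c ∈ S, f c ≤ T)
    (hS : (0 : ℝ) < S.card) :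
    S.card * Real.exp (-(T / S.card)) ≤ ∑ c ∈ S, Real.exp (-f c) := by
  have h1 : ∀ c ∈ S, Real.exp (-(T / S.card)) * (1 + (T / S.card - f c)) ≤ Real.exp (-f c) := by
    intro c _
    have h2 := Real.add_one_le_exp (T / S.card - f c)
    have h3 : Real.exp (-f c) = Real.exp (-(T / S.card)) * Real.exp (T / S.card - f c) := by
      rw [← Real.exp_add]
      congr 1
      ring
    rw [h3]
    refine mul_le_mul_of_nonneg_left ?_ (Real.exp_pos _).le
    linarith
  refine le_trans ?_ (sum_le_sum h1)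
  rw [← mul_sum, sum_add_distrib, sum_sub_distrib, sum_const, sum_const, nsmul_eq_mul,
    nsmul_eq_mul, mul_one, mul_div_cancel₀ _ hS.ne', mul_comm]
  refine mul_le_mul_of_nonneg_left ?_ (Real.exp_pos _).le
  linarith

theorem card_class (n : ℕ) : n ≤ 3 * (univ.filter fun c : Fin n => (c : ℕ) % 3 = 0).card := by
  have h : n ≤ (univ.filter fun c : Fin n => (c : ℕ) % 3 = 0).card * 3 := by
    calc n = (univ : Finset (Fin n)).card := by rw [card_univ, Fintype.card_fin]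
      _ ≤ ((univ.filter fun c : Fin n => (c : ℕ) % 3 = 0) ×ˢ (univ : Finset (Fin 3))).card := by
          refine card_le_card_of_injOn (fun c => (⟨(c : ℕ) / 3 * 3, by
            have := c.isLt; omega⟩, ⟨(c : ℕ) % 3, by omega⟩)) ?_ ?_
          · intro c _
            simp
          · intro c _ c' _ h
            simp only [Prod.mk.injEq, Fin.mk.injEq] at h
            apply Fin.ext
            omega
      _ = _ := by rw [card_product, card_univ, Fintype.card_fin]
  omega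

theorem multi (C : ℝ) (hC : 0 ≤ C) (h : LowerStatement C) : MultiStatement (3 * C) := by
  intro n hn Ω ι _ _ _ H a b hH hdec
  classical
  have hn0 : (0 : ℝ) < n := by exact_mod_cast hn
  obtain ⟨S, hSdef⟩ : ∃ S : Finset (Fin n), S = univ.filter fun c : Fin n => (c : ℕ) % 3 = 0 :=
    ⟨_, rfl⟩
  have hS3 : (n : ℝ) ≤ 3 * S.card := by
    rw [hSdef]
    exact_mod_cast card_class n
  have hS0 : (0 : ℝ) < S.card := by linarith
  have hΩ : (0 : ℝ) < Fintype.card Ω := by exact_mod_cast Fintype.card_pos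
  have key : ∀ (a : Ω → ι → Fin n → ℕ) (p : ℕ), (S.card : ℝ) * Real.exp (-(3 * C *
      ((∑ ω, ∑ r, ∑ c, (a ω r c : ℝ)) / Fintype.card Ω) / (n : ℝ) ^ (p + 1))) ≤
      ∑ c ∈ S, Real.exp (-(C * ((∑ ω, ∑ r, (a ω r c : ℝ)) / Fintype.card Ω) / (n : ℝ) ^ p)) := by
    intro a p
    refine le_trans ?_ (jensen S _ (C * ((∑ ω, ∑ r, ∑ c, (a ω r c : ℝ)) / Fintype.card Ω) /
      (n : ℝ) ^ p) ?_ hS0)
    · refine mul_le_mul_of_nonneg_left ?_ hS0.le
      rw [Real.exp_le_exp, neg_le_neg_iff, div_div, pow_succ, div_le_div_iff₀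
        (by positivity) (by positivity)]
      have h0 : 0 ≤ C * ((∑ ω, ∑ r, ∑ c, (a ω r c : ℝ)) / Fintype.card Ω) * (n : ℝ) ^ p := by
        positivity
      calc C * ((∑ ω, ∑ r, ∑ c, (a ω r c : ℝ)) / Fintype.card Ω) * ((n : ℝ) ^ p * n)
          = C * ((∑ ω, ∑ r, ∑ c, (a ω r c : ℝ)) / Fintype.card Ω) * (n : ℝ) ^ p * n := by ring
        _ ≤ C * ((∑ ω, ∑ r, ∑ c, (a ω r c : ℝ)) / Fintype.card Ω) * (n : ℝ) ^ p *
            (3 * S.card) := mul_le_mul_of_nonneg_left hS3 h0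
        _ = _ := by ring
    · rw [← sum_div, ← mul_sum, ← sum_div]
      refine div_le_div_of_nonneg_right (mul_le_mul_of_nonneg_left
        (div_le_div_of_nonneg_right ?_ hΩ.le) hC) (by positivity)
      rw [sum_comm]
      refine sum_le_sum fun ω _ => ?_
      rw [sum_comm]
      refine sum_le_sum fun r _ => ?_
      exact sum_le_sum_of_subset_of_nonneg (subset_univ _) fun _ _ _ => by positivity
  have h1 : ∀ c ∈ S, Real.exp (-(C * ((∑ ω, ∑ r, (a ω r c : ℝ)) / Fintype.card Ω) / (n : ℝ) ^ 1)) +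
      Real.exp (-(C * ((∑ ω, ∑ r, (b ω r c : ℝ)) / Fintype.card Ω) / (n : ℝ) ^ 2)) ≤ 1 + C / n := by
    intro c hc
    rw [hSdef] at hc
    have hc' := (mem_filter.1 hc).2
    rw [pow_one]
    exact h n c hc' Ω ι H (fun ω r => a ω r c) (fun ω r => b ω r c)
      (fun ω r => hH ω r c hc') hdec
  have h2 := sum_le_sum h1
  rw [sum_add_distrib, sum_const, nsmul_eq_mul] at h2
  have h3 := key a 1
  have h4 := key b 2
  have h5 : (S.card : ℝ) * (Real.exp (-(3 * C *
      ((∑ ω, ∑ r, ∑ c, (a ω r c : ℝ)) / Fintype.card Ω) / (n : ℝ) ^ 2)) +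
      Real.exp (-(3 * C * ((∑ ω, ∑ r, ∑ c, (b ω r c : ℝ)) / Fintype.card Ω) / (n : ℝ) ^ 3))) ≤
      S.card * (1 + C / n) := by
    rw [mul_add]
    linarith
  have h6 := le_of_mul_le_mul_left h5 hS0
  refine h6.trans ?_
  have : 0 ≤ C / n := by positivity
  have e : 3 * C / n = 3 * (C / n) := by ring
  rw [e]
  linarith

theorem lower_mono {C C' : ℝ} (h : C ≤ C') (hl : LowerStatement C) : LowerStatement C' := by
  intro n c hc Ω ι _ _ _ H a b hH hdec
  have hn0 : (0 : ℝ) < n := by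
    have := c.isLt
    exact_mod_cast (by omega : 0 < n)
  have h1 := hl n c hc Ω ι H a b hH hdec
  have h2 : ∀ (X Y : ℝ), 0 ≤ X → 0 < Y →
      Real.exp (-(C' * X / Y)) ≤ Real.exp (-(C * X / Y)) := by
    intro X Y hX hY
    rw [Real.exp_le_exp, neg_le_neg_iff]
    exact div_le_div_of_nonneg_right (mul_le_mul_of_nonneg_right h hX) hY.le
  have h3 := h2 ((∑ ω, ∑ r, (a ω r : ℝ)) / Fintype.card Ω) n (by positivity) hn0
  have h4 := h2 ((∑ ω, ∑ r, (b ω r : ℝ)) / Fintype.card Ω) ((n : ℝ) ^ 2) (by positivity)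
    (by positivity)
  have h5 : C / n ≤ C' / n := div_le_div_of_nonneg_right h hn0.le
  linarith

end Pool.Agent.Helper5.R4
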