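import Mathlib
import Pool.Agent.Helper5.R4.Sys
import Pool.Agent.Helper53.R4.Frame

/-!
# Normal form
-/

set_option autoImplicit false

namespace Pool.Agent.Helper5.R4

open Pool.Agent.Helper53.R4

/-- Up to functions of two of the three inputs the vote is computed, for every `x`, by a
conversation of Alice, who knows `u`, and Bob, who knows `y`. -/
def NF {J K : Type} (m N A B : ℕ) (V : (J → Fin m) → (J × K → Fin N) → (K → Fin (m + N)) → ℝ) :
    Prop :=
  ∃ (E₁ : (J → Fin m) → (J × K → Fin N) → ℝ) (E₂ : (J → Fin m) → (K → Fin (m + N)) → ℝ)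
    (E₃ : (J × K → Fin N) → (K → Fin (m + N)) → ℝ)
    (C : (J → Fin m) → (K → Fin (m + N)) → (J × K → Fin N) → ℝ), (∀ x, TC A B (C x)) ∧
    ∀ x y u, V x y u = E₁ x y + E₂ x u + E₃ y u + C x u y

end Pool.Agent.Helper5.R4
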