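import Mathlib
import Pool.Agent.Helper5.R4.Lower
import Pool.Agent.Helper53.R4.Rect
import Pool.Agent.Helper95.R4.TwoWay

/-!
# The assembly, up to the counting and the numbers
-/

set_option autoImplicit false

namespace Pool.Agent.Helper5.R4

open Finset Pool.Agent.Helper22.ETModel Pool.Agent.Helper8.VT Pool.Agent.Helper8.UV
open Pool.Agent.Helper53.R4 Pool.Agent.Helper71.R4
open Pool.Agent.Helper5.RV (ind ind_nonneg ind_le_one ind_of ind_of_not ind_mono Cls card_cls)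

theorem pz_inj {m N : ℕ} (a : Fin m) : Function.Injective fun v : Fin N => pz a v := by
  intro v v' h
  apply Fin.ext
  have := congrArg Fin.val h
  simp only [pz] at this
  omega

theorem nonempty_cls {n : ℕ} (hn : 3 ≤ n) (q : ℕ) (hq : q < 3) : Nonempty (Cls n q) :=
  ⟨⟨⟨q, by omega⟩, by simp only; omega⟩⟩

theorem hRL' {n : ℕ} (x : Cls n 1 → Fin (n ^ 4)) (l L : ℝ) (hn : 3 ≤ n) (hl : 0 < l)
    (hl1 : l ≤ 1) (hL : Real.exp 1 < L) : RectGood (Cls n 1) (Cls n 2)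
      (fun j (v : Fin (n ^ 8)) => (pz (x j) v : Fin (n ^ 4 + n ^ 8)))
      (l / 2 + L * (1 / (n : ℝ) ^ 4))
      (1 / (Fintype.card (Cls n 2) * (Real.log L - 1)))
      (L / (l * (Fintype.card (Cls n 1) * Fintype.card (Cls n 2)))) := by
  have := nonempty_cls hn 1 (by norm_num)
  have := nonempty_cls hn 2 (by norm_num)
  have hN : 0 < n ^ 8 := by positivity
  have : Nonempty (Fin (n ^ 8)) := ⟨⟨0, hN⟩⟩
  have : Nonempty (Fin (n ^ 4 + n ^ 8)) := ⟨⟨0, by omega⟩⟩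
  have hL0 : 0 < L := lt_trans (Real.exp_pos 1) hL
  have hn0 : (0 : ℝ) < n := by exact_mod_cast (by omega : 0 < n)
  refine rect_big _ (fun j => pz_inj (x j)) (1 / (n : ℝ) ^ 4) L l ?_ hL0 ?_ hl hl1
  · rw [Fintype.card_fin, Fintype.card_fin]
    push_cast
    have : (1 + 1 / (n : ℝ) ^ 4) * (n : ℝ) ^ 8 = (n : ℝ) ^ 4 + (n : ℝ) ^ 8 := by
      field_simp
      ring
    exact this.ge
  · rw [Real.lt_log_iff_exp_lt hL0]
    exact hL

theorem hRT' {n : ℕ} (x : Cls n 1 → Fin (n ^ 4)) (θ ε : ℝ) (hn : 3 ≤ n) (hθ : 0 < θ)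
    (hε : 0 < ε) : RectGood (Cls n 1) (Cls n 2)
      (fun j (v : Fin (n ^ 8)) => (pz (x j) v : Fin (n ^ 4 + n ^ 8))) ε
      (8 * Real.exp θ / (θ * ε ^ 2 * Fintype.card (Cls n 2)))
      (1 / (θ * (Fintype.card (Cls n 1) * Fintype.card (Cls n 2)))) := by
  have := nonempty_cls hn 1 (by norm_num)
  have := nonempty_cls hn 2 (by norm_num)
  have hN : 0 < n ^ 8 := by positivity
  have : Nonempty (Fin (n ^ 8)) := ⟨⟨0, hN⟩⟩
  have : Nonempty (Fin (n ^ 4 + n ^ 8)) := ⟨⟨0, by omega⟩⟩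
  refine rect_theta _ (fun j => pz_inj (x j)) ?_ θ ε hθ hε
  rw [Fintype.card_fin, Fintype.card_fin]
  have : n ^ 4 ≤ n ^ 8 := Nat.pow_le_pow_right (by omega) (by norm_num)
  omega

/-- for `n = 0` there is nothing to prove, for positive `n` the types are inhabited -/
theorem h2w' {n : ℕ} (hn : 3 ≤ n) (x : Cls n 1 → Fin (n ^ 4)) (e0 c1 c2 : ℝ) (q a b : ℕ)
      (F : (Cls n 2 → Fin (n ^ 4 + n ^ 8)) → (Cls n 1 × Cls n 2 → Fin (n ^ 8)) → ℝ)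
      (hq : 3 ≤ q) (he : 0 ≤ e0) (h1 : 0 ≤ c1) (h2 : 0 ≤ c2)
      (hR : RectGood (Cls n 1) (Cls n 2) (fun j (v : Fin (n ^ 8)) => pz (x j) v) e0 c1 c2)
      (hF : TC a b F) :
      planted (fun j v => pz (x j) v) (fun u y => 0 < F u y) -
        prob (fun u y => 0 < F u y) ≤
        e0 + 1 / q + c1 * (a * Real.log 2 + 1) + c2 * (b * Real.log 2 + Real.log q) := by
  have := nonempty_cls hn 1 (by norm_num)
  have := nonempty_cls hn 2 (by norm_num)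
  have hN : 0 < n ^ 8 := by positivity
  have : Nonempty (Fin (n ^ 8)) := ⟨⟨0, hN⟩⟩
  have : Nonempty (Fin (n ^ 4 + n ^ 8)) := ⟨⟨0, by omega⟩⟩
  exact Pool.Agent.Helper95.R4.two_way hR he h1 h2 hq hF

/-- the assembly, up to the counting and the numbers -/
theorem lower_rest (C : ℝ) (hC : 2 ≤ C)
    (h1 : ∀ {n : ℕ}, 3 ≤ n → ∀ (j₁ : Cls n 1) (k₁ : Cls n 2) (j₂ : Cls n 1) (k₂ : Cls n 2),
      k₂ ≠ k₁ → T5 (m := n ^ 4) (N := n ^ 8) (bad₁ j₁ k₁ j₂ k₂) ≤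
      (Fintype.card (Cls n 1) * Fintype.card (Cls n 2) / (n : ℝ) ^ 4) *
        Sz (Cls n 1) (Cls n 2) (n ^ 4) (n ^ 8))
    (h2 : ∀ {n : ℕ}, 3 ≤ n → ∀ (j₁ : Cls n 1) (k₁ : Cls n 2) (j₂ : Cls n 1) (k₂ : Cls n 2),
      k₂ ≠ k₁ → T5 (m := n ^ 4) (N := n ^ 8) (bad₂ j₁ k₁ j₂ k₂) ≤
      (Fintype.card (Cls n 1) * Fintype.card (Cls n 2) / (n : ℝ) ^ 4) *
        Sz (Cls n 1) (Cls n 2) (n ^ 4) (n ^ 8))
    (hnum : ∀ (n j k : ℕ), 3 ≤ n → n ≤ 3 * j + 2 → n ≤ 3 * k + 2 → j ≤ n → k ≤ n →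
      ∀ (A B : ℝ), 0 ≤ A → 0 ≤ B →
      (∀ (q : ℕ) (l L : ℝ), 3 ≤ q → 0 < l → l ≤ 1 → Real.exp 1 < L →
        (1 - 1 / (k : ℝ)) * (3 / 10 - 2 * (j * k / (n : ℝ) ^ 4)) ≤
        2 * ((l / 2 + L * (1 / (n : ℝ) ^ 4)) + 1 / q +
          1 / (k * (Real.log L - 1)) * (2 * A * Real.log 2 + 1) +
          L / (l * (j * k)) * (2 * B * Real.log 2 + Real.log q))) →
      (∀ (q : ℕ) (θ ε : ℝ), 3 ≤ q → 0 < θ → 0 < ε → ε ≤ 1 →
        (1 - 1 / (k : ℝ)) * (3 / 10 - 2 * (j * k / (n : ℝ) ^ 4)) ≤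
        2 * (ε + 1 / q + 8 * Real.exp θ / (θ * ε ^ 2 * k) * (2 * A * Real.log 2 + 1) +
          1 / (θ * (j * k)) * (2 * B * Real.log 2 + Real.log q))) →
      Real.exp (-(C * A / n)) + Real.exp (-(C * B / (n : ℝ) ^ 2)) ≤ 1 + C / n) :
    LowerStatement C :=
  lower_main C hC (fun hn x e0 c1 c2 q a b F hq he h1 h2 hR hF =>
    h2w' hn x e0 c1 c2 q a b F hq he h1 h2 hR hF) h1 h2
    (fun x l L hn hl hl1 hL => hRL' x l L hn hl hl1 hL)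
    (fun x θ ε hn hθ hε _ => hRT' x θ ε hn hθ hε) hnum

end Pool.Agent.Helper5.R4
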