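import Mathlib
import Pool.Agent.Helper5.R4.Rest
import Pool.Agent.Helper62.R4.Bad

/-!
# The assembly, up to the numbers
-/

set_option autoImplicit false

namespace Pool.Agent.Helper5.R4

/-- what the two two-way bounds give together -/
def Numeric (C : ℝ) : Prop :=
  ∀ (n j k : ℕ), 3 ≤ n → n ≤ 3 * j + 2 → n ≤ 3 * k + 2 → j ≤ n → k ≤ n →
      ∀ (A B : ℝ), 0 ≤ A → 0 ≤ B →
      (∀ (q : ℕ) (l L : ℝ), 3 ≤ q → 0 < l → l ≤ 1 → Real.exp 1 < L →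
        (1 - 1 / (k : ℝ)) * (3 / 10 - 2 * (j * k / (n : ℝ) ^ 4)) ≤
        2 * ((l / 2 + L * (1 / (n : ℝ) ^ 4)) + 1 / q +
          1 / (k * (Real.log L - 1)) * (2 * A * Real.log 2 + 1) +
          L / (l * (j * k)) * (2 * B * Real.log 2 + Real.log q))) →
      (∀ (q : ℕ) (θ ε : ℝ), 3 ≤ q → 0 < θ → 0 < ε → ε ≤ 1 →
        (1 - 1 / (k : ℝ)) * (3 / 10 - 2 * (j * k / (n : ℝ) ^ 4)) ≤
        2 * (ε + 1 / q + 8 * Real.exp θ / (θ * ε ^ 2 * k) * (2 * A * Real.log 2 + 1) +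
          1 / (θ * (j * k)) * (2 * B * Real.log 2 + Real.log q))) →
      Real.exp (-(C * A / n)) + Real.exp (-(C * B / (n : ℝ) ^ 2)) ≤ 1 + C / n

theorem lower_of_numeric (C : ℝ) (hC : 2 ≤ C) (hnum : Numeric C) : LowerStatement C :=
  lower_rest C hC
    (fun hn j₁ k₁ j₂ k₂ hk => Pool.Agent.Helper62.R4.bad_one (by omega) j₁ k₁ j₂ k₂ hk)
    (fun hn j₁ k₁ j₂ k₂ hk => Pool.Agent.Helper62.R4.bad_two (by omega) j₁ k₁ j₂ k₂ hk)
    hnum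

end Pool.Agent.Helper5.R4
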