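import Mathlib
import Pool.Agent.Helper5.R4.Rest2

/-!
# The numbers
-/

set_option autoImplicit false

namespace Pool.Agent.Helper5.R4

theorem log_two_le : Real.log 2 ≤ 7 / 10 := by
  have := Real.log_two_lt_d9
  linarith

theorem log_hundred_le : Real.log ((100 : ℕ) : ℝ) ≤ 5 := by
  rw [Real.log_le_iff_le_exp (by norm_num)]
  have h1 : (27 / 10 : ℝ) ≤ Real.exp 1 := by
    have := Real.exp_one_gt_d9
    linarith
  have h2 : Real.exp 5 = Real.exp 1 ^ 5 := by
    rw [← Real.exp_nat_mul]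
    norm_num
  rw [h2]
  calc (((100 : ℕ) : ℝ)) ≤ (27 / 10 : ℝ) ^ 5 := by norm_num
    _ ≤ _ := pow_le_pow_left₀ (by norm_num) h1 5

theorem left_ge {n j k : ℕ} (hn : 1000 ≤ n) (hk : n ≤ 3 * k + 2) (hj' : j ≤ n) (hk' : k ≤ n) :
    29 / 100 ≤ (1 - 1 / (k : ℝ)) * (3 / 10 - 2 * (j * k / (n : ℝ) ^ 4)) := by
  have hn' : (1000 : ℝ) ≤ n := by exact_mod_cast hn
  have hk1 : (100 : ℝ) ≤ k := by exact_mod_cast (by omega : 100 ≤ k)
  have h1 : 1 / (k : ℝ) ≤ 1 / 100 := one_div_le_one_div_of_le (by norm_num) hk1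
  have hjr : (j : ℝ) ≤ n := by exact_mod_cast hj'
  have hkr : (k : ℝ) ≤ n := by exact_mod_cast hk'
  have h2 : (j : ℝ) * k / (n : ℝ) ^ 4 ≤ 1 / 1000 := by
    rw [div_le_div_iff₀ (by positivity) (by norm_num)]
    have h3 : (j : ℝ) * k ≤ (n : ℝ) * n := mul_le_mul hjr hkr (by positivity) (by positivity)
    have h4 : (n : ℝ) ^ 4 = (n * n) * (n * n) := by ring
    have h5 : (1000 : ℝ) ≤ n * n := by nlinarith
    rw [h4, one_mul]
    exact mul_le_mul h3 h5 (by norm_num) (by positivity)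
  have h6 : (99 / 100 : ℝ) ≤ 1 - 1 / (k : ℝ) := by linarith
  have h7 : (298 / 1000 : ℝ) ≤ 3 / 10 - 2 * (j * k / (n : ℝ) ^ 4) := by linarith
  calc (29 / 100 : ℝ) ≤ 99 / 100 * (298 / 1000) := by norm_num
    _ ≤ _ := mul_le_mul h6 h7 (by norm_num) (by linarith)

theorem quarter {n j : ℕ} (hn : 1000 ≤ n) (hj : n ≤ 3 * j + 2) : (n : ℝ) / 4 ≤ j := by
  have h : n ≤ 4 * j := by omega
  have h' : (n : ℝ) ≤ 4 * j := by exact_mod_cast h
  linarith

theorem fam1 {n j k : ℕ} (hn : 1000 ≤ n) (hj : n ≤ 3 * j + 2) (hk : n ≤ 3 * k + 2) (hj' : j ≤ n)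
    (hk' : k ≤ n) {A B : ℝ} (hA : 0 ≤ A) (hB : 0 ≤ B) {M : ℝ} (hM : 1 < M)
    (h : (1 - 1 / (k : ℝ)) * (3 / 10 - 2 * (j * k / (n : ℝ) ^ 4)) ≤
        2 * (((1 / 10) / 2 + Real.exp (M + 1) * (1 / (n : ℝ) ^ 4)) + 1 / ((100 : ℕ) : ℝ) +
          1 / (k * (Real.log (Real.exp (M + 1)) - 1)) * (2 * A * Real.log 2 + 1) +
          Real.exp (M + 1) / ((1 / 10) * (j * k)) * (2 * B * Real.log 2 +
            Real.log ((100 : ℕ) : ℝ)))) :
    29 / 100 ≤ 12 / 100 + 2 * (Real.exp (M + 1) / (n : ℝ) ^ 2) +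
      8 * (14 / 10 * (A / n) + 1 / n) / M + 448 * (Real.exp (M + 1) * (B / (n : ℝ) ^ 2)) +
      1600 * (Real.exp (M + 1) / (n : ℝ) ^ 2) := by
  have h0 := (left_ge hn hk hj' hk').trans h
  have hn' : (1000 : ℝ) ≤ n := by exact_mod_cast hn
  have hn0 : (0 : ℝ) < n := by linarith
  have hj4 := quarter hn hj
  have hk4 := quarter hn hk
  have hj0 : (0 : ℝ) < j := by linarith
  have hk0 : (0 : ℝ) < k := by linarith
  obtain ⟨L, hL⟩ : ∃ L, L = Real.exp (M + 1) := ⟨_, rfl⟩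
  have hL0 : 0 < L := by rw [hL]; exact Real.exp_pos _
  rw [Real.log_exp, ← hL, add_sub_cancel_right] at h0
  rw [← hL]
  have hA1 : 2 * A * Real.log 2 + 1 ≤ 14 / 10 * A + 1 := by
    have := mul_le_mul_of_nonneg_left log_two_le (by positivity : 0 ≤ 2 * A)
    linarith
  have hB1 : 2 * B * Real.log 2 + Real.log ((100 : ℕ) : ℝ) ≤ 14 / 10 * B + 5 := by
    refine add_le_add ?_ log_hundred_le
    have := mul_le_mul_of_nonneg_left log_two_le (by positivity : 0 ≤ 2 * B)
    linarith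
  have hM0 : 0 < M := by linarith
  have t1 : L * (1 / (n : ℝ) ^ 4) ≤ L / (n : ℝ) ^ 2 := by
    rw [mul_one_div]
    refine div_le_div_of_nonneg_left hL0.le (by positivity) ?_
    exact pow_le_pow_right₀ (by linarith) (by norm_num)
  have t2 : 1 / (k * M) * (2 * A * Real.log 2 + 1) ≤ 4 * (14 / 10 * (A / n) + 1 / n) / M := by
    calc 1 / (k * M) * (2 * A * Real.log 2 + 1) ≤ 1 / (k * M) * (14 / 10 * A + 1) :=
          mul_le_mul_of_nonneg_left hA1 (by positivity)
      _ ≤ 1 / (n / 4 * M) * (14 / 10 * A + 1) := by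
          refine mul_le_mul_of_nonneg_right ?_ (by positivity)
          exact one_div_le_one_div_of_le (by positivity)
            (mul_le_mul_of_nonneg_right hk4 hM0.le)
      _ = _ := by field_simp
  have hjk : (n : ℝ) ^ 2 / 16 ≤ j * k := by
    calc (n : ℝ) ^ 2 / 16 = n / 4 * (n / 4) := by ring
      _ ≤ j * k := mul_le_mul hj4 hk4 (by positivity) (by positivity)
  have t3 : L / ((1 / 10) * (j * k)) * (2 * B * Real.log 2 + Real.log ((100 : ℕ) : ℝ)) ≤
      224 * (L * (B / (n : ℝ) ^ 2)) + 800 * (L / (n : ℝ) ^ 2) := by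
    calc L / ((1 / 10) * (j * k)) * (2 * B * Real.log 2 + Real.log ((100 : ℕ) : ℝ))
        ≤ L / ((1 / 10) * (j * k)) * (14 / 10 * B + 5) :=
          mul_le_mul_of_nonneg_left hB1 (by positivity)
      _ ≤ L / ((1 / 10) * ((n : ℝ) ^ 2 / 16)) * (14 / 10 * B + 5) := by
          refine mul_le_mul_of_nonneg_right ?_ (by positivity)
          refine div_le_div_of_nonneg_left hL0.le (by positivity) ?_
          exact mul_le_mul_of_nonneg_left hjk (by norm_num)
      _ = _ := by field_simp; ring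
  have e1 : (1 : ℝ) / ((100 : ℕ) : ℝ) = 1 / 100 := by norm_num
  rw [e1] at h0
  have e2 : 8 * (14 / 10 * (A / n) + 1 / n) / M = 2 * (4 * (14 / 10 * (A / n) + 1 / n) / M) := by
    ring
  rw [e2]
  linarith

theorem fam2 {n j k : ℕ} (hn : 1000 ≤ n) (hj : n ≤ 3 * j + 2) (hk : n ≤ 3 * k + 2) (hj' : j ≤ n)
    (hk' : k ≤ n) {A B : ℝ} (hA : 0 ≤ A) (hB : 0 ≤ B) {θ : ℝ} (hθ : 0 < θ)
    (h : (1 - 1 / (k : ℝ)) * (3 / 10 - 2 * (j * k / (n : ℝ) ^ 4)) ≤
        2 * (1 / 100 + 1 / ((100 : ℕ) : ℝ) +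
          8 * Real.exp θ / (θ * (1 / 100) ^ 2 * k) * (2 * A * Real.log 2 + 1) +
          1 / (θ * (j * k)) * (2 * B * Real.log 2 + Real.log ((100 : ℕ) : ℝ)))) :
    25 / 100 * θ ≤ 900000 * (Real.exp θ * (A / n + 1 / n)) + 45 * (B / (n : ℝ) ^ 2) +
      160 / (n : ℝ) ^ 2 := by
  have h0 := (left_ge hn hk hj' hk').trans h
  have hn' : (1000 : ℝ) ≤ n := by exact_mod_cast hn
  have hn0 : (0 : ℝ) < n := by linarith
  have hj4 := quarter hn hj
  have hk4 := quarter hn hk
  have hj0 : (0 : ℝ) < j := by linarith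
  have hk0 : (0 : ℝ) < k := by linarith
  obtain ⟨E, hE⟩ : ∃ E, E = Real.exp θ := ⟨_, rfl⟩
  have hE0 : 0 < E := by rw [hE]; exact Real.exp_pos _
  rw [← hE] at h0
  rw [← hE]
  have hA1 : 2 * A * Real.log 2 + 1 ≤ 14 / 10 * (A + 1) := by
    have := mul_le_mul_of_nonneg_left log_two_le (by positivity : 0 ≤ 2 * A)
    linarith
  have hB1 : 2 * B * Real.log 2 + Real.log ((100 : ℕ) : ℝ) ≤ 14 / 10 * B + 5 := by
    refine add_le_add ?_ log_hundred_le
    have := mul_le_mul_of_nonneg_left log_two_le (by positivity : 0 ≤ 2 * B)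
    linarith
  have t2 : 8 * E / (θ * (1 / 100) ^ 2 * k) * (2 * A * Real.log 2 + 1) ≤
      448000 * (E * (A / n + 1 / n)) / θ := by
    calc 8 * E / (θ * (1 / 100) ^ 2 * k) * (2 * A * Real.log 2 + 1)
        ≤ 8 * E / (θ * (1 / 100) ^ 2 * k) * (14 / 10 * (A + 1)) :=
          mul_le_mul_of_nonneg_left hA1 (by positivity)
      _ ≤ 8 * E / (θ * (1 / 100) ^ 2 * (n / 4)) * (14 / 10 * (A + 1)) := by
          refine mul_le_mul_of_nonneg_right ?_ (by positivity)
          refine div_le_div_of_nonneg_left (by positivity) (by positivity) ?_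
          exact mul_le_mul_of_nonneg_left hk4 (by positivity)
      _ = _ := by field_simp; ring
  have hjk : (n : ℝ) ^ 2 / 16 ≤ j * k := by
    calc (n : ℝ) ^ 2 / 16 = n / 4 * (n / 4) := by ring
      _ ≤ j * k := mul_le_mul hj4 hk4 (by positivity) (by positivity)
  have t3 : 1 / (θ * (j * k)) * (2 * B * Real.log 2 + Real.log ((100 : ℕ) : ℝ)) ≤
      (224 / 10 * (B / (n : ℝ) ^ 2) + 80 / (n : ℝ) ^ 2) / θ := by
    calc 1 / (θ * (j * k)) * (2 * B * Real.log 2 + Real.log ((100 : ℕ) : ℝ))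
        ≤ 1 / (θ * (j * k)) * (14 / 10 * B + 5) :=
          mul_le_mul_of_nonneg_left hB1 (by positivity)
      _ ≤ 1 / (θ * ((n : ℝ) ^ 2 / 16)) * (14 / 10 * B + 5) := by
          refine mul_le_mul_of_nonneg_right ?_ (by positivity)
          exact one_div_le_one_div_of_le (by positivity)
            (mul_le_mul_of_nonneg_left hjk hθ.le)
      _ = _ := by field_simp; ring
  have e1 : (1 : ℝ) / ((100 : ℕ) : ℝ) = 1 / 100 := by norm_num
  rw [e1] at h0
  have h1 : (25 / 100 : ℝ) ≤ 2 * (448000 * (E * (A / n + 1 / n)) / θ) +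
      2 * ((224 / 10 * (B / (n : ℝ) ^ 2) + 80 / (n : ℝ) ^ 2) / θ) := by linarith
  have h2 := mul_le_mul_of_nonneg_right h1 hθ.le
  have e2 : (2 * (448000 * (E * (A / n + 1 / n)) / θ) +
      2 * ((224 / 10 * (B / (n : ℝ) ^ 2) + 80 / (n : ℝ) ^ 2) / θ)) * θ =
      896000 * (E * (A / n + 1 / n)) + 448 / 10 * (B / (n : ℝ) ^ 2) + 160 / (n : ℝ) ^ 2 := by
    field_simp
    ring
  rw [e2] at h2
  have h3 : 0 ≤ E * (A / n + 1 / n) := by positivity
  have h4 : 0 ≤ B / (n : ℝ) ^ 2 := by positivity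
  linarith

theorem numeric : Numeric (10 ^ 9) := by
  intro n j k hn3 hj hk hj' hk' A B hA hB h1 h2
  obtain ⟨C, hC⟩ : ∃ C : ℝ, C = 10 ^ 9 := ⟨_, rfl⟩
  rw [← hC]
  have hC0 : 0 < C := by rw [hC]; norm_num
  have hn0 : (0 : ℝ) < n := by exact_mod_cast (by omega : 0 < n)
  have ea : Real.exp (-(C * A / n)) ≤ 1 := by
    rw [Real.exp_le_one_iff]
    have : 0 ≤ C * A / n := by positivity
    linarith
  have eb : Real.exp (-(C * B / (n : ℝ) ^ 2)) ≤ 1 := by
    rw [Real.exp_le_one_iff]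
    have : 0 ≤ C * B / (n : ℝ) ^ 2 := by positivity
    linarith
  by_cases hnC : (n : ℝ) ≤ C
  · have : 1 ≤ C / n := by rw [le_div_iff₀ hn0, one_mul]; exact hnC
    linarith
  have hnC' := not_le.1 hnC
  have hn : 1000 ≤ n := by
    have : (1000 : ℝ) ≤ n := by rw [hC] at hnC'; linarith
    exact_mod_cast this
  by_contra hcon
  have hcon' := not_le.1 hcon
  obtain ⟨α, hα⟩ : ∃ α, α = A / n := ⟨_, rfl⟩
  obtain ⟨β, hβ⟩ : ∃ β, β = B / (n : ℝ) ^ 2 := ⟨_, rfl⟩
  have hα0 : 0 ≤ α := by rw [hα]; positivity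
  have hβ0 : 0 ≤ β := by rw [hβ]; positivity
  rw [mul_div_assoc, mul_div_assoc, ← hα, ← hβ] at hcon'
  rw [mul_div_assoc, ← hα] at ea
  rw [mul_div_assoc, ← hβ] at eb
  obtain ⟨a, ha⟩ : ∃ a, a = Real.exp (-(C * α)) := ⟨_, rfl⟩
  obtain ⟨b, hb⟩ : ∃ b, b = Real.exp (-(C * β)) := ⟨_, rfl⟩
  rw [← ha, ← hb] at hcon'
  rw [← ha] at ea
  rw [← hb] at eb
  have ha0 : 0 < a := by rw [ha]; exact Real.exp_pos _
  have hb0 : 0 < b := by rw [hb]; exact Real.exp_pos _
  have hCn : 0 < C / n := by positivity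
  have hn2 : (1 : ℝ) / n ≤ 1 / C := one_div_le_one_div_of_le hC0 hnC'.le
  have hCval : 1 / C = 1 / 10 ^ 9 := by rw [hC]
  by_cases hcase : 1 ≤ C * α
  · -- many bits of Alice
    have ha2 : a ≤ 1 / 2 := by
      rw [ha]
      have h3 : Real.exp (-(C * α)) ≤ Real.exp (-1) := by
        rw [Real.exp_le_exp]; linarith
      refine h3.trans ?_
      rw [Real.exp_neg]
      have h4 := Real.exp_one_gt_d9
      rw [inv_le_comm₀ (Real.exp_pos 1) (by norm_num)]
      norm_num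
      linarith
    have hCβ : C * β ≤ 2 * a := by
      have h3 : Real.log b = -(C * β) := by rw [hb, Real.log_exp]
      have h4 : 1 - a ≤ b := by linarith
      have h5 : Real.log (1 - a) ≤ Real.log b := Real.log_le_log (by linarith) h4
      have h6 : 1 - (1 - a)⁻¹ ≤ Real.log (1 - a) := Real.one_sub_inv_le_log_of_pos (by linarith)
      have h7 : (1 - a)⁻¹ ≤ 1 + 2 * a := by
        rw [inv_le_comm₀ (by linarith) (by linarith)]
        have h8 : 0 < 1 + 2 * a := by linarith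
        rw [inv_le_comm₀ h8 (by linarith)]
        rw [inv_le_comm₀ (by linarith) h8]
        rw [inv_eq_one_div, div_le_iff₀ h8]
        nlinarith
      linarith
    have hβ1 : β ≤ 2 * a / C := by
      rw [le_div_iff₀ hC0]; linarith
    obtain ⟨M, hM⟩ : ∃ M, M = 1 + 400 * α := ⟨_, rfl⟩
    have hαpos : 0 < α := by
      by_contra hneg
      have : α = 0 := le_antisymm (not_lt.1 hneg) hα0
      rw [this, mul_zero] at hcase
      linarith
    have hM1 : 1 < M := by rw [hM]; linarith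
    have hLlt : Real.exp 1 < Real.exp (M + 1) := by
      rw [Real.exp_lt_exp]; linarith
    have h3 := fam1 hn hj hk hj' hk' hA hB hM1
      (h1 100 (1 / 10) (Real.exp (M + 1)) (by norm_num) (by norm_num) (by norm_num) hLlt)
    rw [← hα, ← hβ] at h3
    -- the size of `L`
    have hL : Real.exp (M + 1) * a ≤ 9 := by
      rw [ha, ← Real.exp_add]
      have h4 : M + 1 + -(C * α) ≤ 2 := by
        rw [hM]
        have : 400 * α ≤ C * α := mul_le_mul_of_nonneg_right (by rw [hC]; norm_num) hα0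
        linarith
      refine (Real.exp_le_exp.2 h4).trans ?_
      have h5 : Real.exp 2 = Real.exp 1 ^ 2 := by
        rw [← Real.exp_nat_mul]; norm_num
      rw [h5]
      have h6 : Real.exp 1 ≤ 3 := by
        have := Real.exp_one_lt_d9
        linarith
      have := pow_le_pow_left₀ (Real.exp_pos 1).le h6 2
      linarith
    have hL0 : 0 < Real.exp (M + 1) := Real.exp_pos _
    have u1 : Real.exp (M + 1) * β ≤ 18 / C := by
      calc Real.exp (M + 1) * β ≤ Real.exp (M + 1) * (2 * a / C) :=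
            mul_le_mul_of_nonneg_left hβ1 hL0.le
        _ = 2 * (Real.exp (M + 1) * a) / C := by ring
        _ ≤ 2 * 9 / C := div_le_div_of_nonneg_right (by linarith) hC0.le
        _ = 18 / C := by norm_num
    have haC : C < a * n := by
      have : C / n < a := by linarith
      rwa [div_lt_iff₀ hn0] at this
    have u2 : Real.exp (M + 1) / (n : ℝ) ^ 2 ≤ 9 / C := by
      rw [div_le_div_iff₀ (by positivity) hC0]
      calc Real.exp (M + 1) * C ≤ Real.exp (M + 1) * (a * n) :=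
            mul_le_mul_of_nonneg_left haC.le hL0.le
        _ = Real.exp (M + 1) * a * n := by ring
        _ ≤ 9 * n := mul_le_mul_of_nonneg_right hL hn0.le
        _ ≤ 9 * (n : ℝ) ^ 2 := by nlinarith
    have u3 : 8 * (14 / 10 * α + 1 / n) / M ≤ 3 / 100 + 8 * (1 / C) := by
      rw [div_le_iff₀ (by linarith)]
      have h4 : 0 ≤ 1 / C := by positivity
      have h5 : 8 * (14 / 10 * α + 1 / n) ≤ 8 * (14 / 10 * α + 1 / C) := by linarith
      refine h5.trans ?_
      rw [hM]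
      nlinarith [mul_nonneg h4 hα0]
    have e18 : 18 / C = 18 * (1 / C) := by ring
    have e9 : 9 / C = 9 * (1 / C) := by ring
    rw [e18] at u1
    rw [e9] at u2
    rw [hCval] at u1 u2 u3
    norm_num at u1 u2 u3 h3
    linarith
  · -- few bits of Alice
    have hcase' := not_le.1 hcase
    have ht0 : 0 ≤ C * α := by positivity
    have ha2 : a ≤ 1 - C * α / 2 := by
      rw [ha]
      obtain ⟨t, ht⟩ : ∃ t, t = C * α := ⟨_, rfl⟩
      rw [← ht] at hcase' ht0 ⊢
      have h3 := Real.one_sub_inv_le_log_of_pos (show 0 < 1 - t / 2 by linarith)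
      have h4 : Real.exp (-t) ≤ 1 - t / 2 := by
        rw [← Real.le_log_iff_exp_le (by linarith)]
        refine le_trans ?_ h3
        have h5 : (1 - t / 2)⁻¹ ≤ 1 + t := by
          rw [inv_eq_one_div, div_le_iff₀ (by linarith)]
          nlinarith
        linarith
      exact h4
    obtain ⟨τ, hτ⟩ : ∃ τ, τ = α + 1 / n := ⟨_, rfl⟩
    have hτ0 : 0 < τ := by rw [hτ]; positivity
    have hbτ : C * τ / 2 < b := by
      have : C * τ / 2 = C * α / 2 + C / n / 2 := by rw [hτ]; ring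
      rw [this]
      linarith
    have hlt1 : C * τ / 2 < 1 := lt_of_lt_of_le hbτ eb
    obtain ⟨θ, hθ⟩ : ∃ θ, θ = 1 - Real.log (C * τ / 2) := ⟨_, rfl⟩
    have hx0 : 0 < C * τ / 2 := by positivity
    have hlog : Real.log (C * τ / 2) < 0 := Real.log_neg hx0 hlt1
    have hθ1 : 1 < θ := by rw [hθ]; linarith
    have hCβ : C * β ≤ θ := by
      have h3 : Real.log b = -(C * β) := by rw [hb, Real.log_exp]
      have h4 := Real.log_lt_log hx0 hbτ
      rw [hθ]
      linarith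
    have h3 := fam2 hn hj hk hj' hk' hA hB (by linarith : 0 < θ)
      (h2 100 θ (1 / 100) (by norm_num) (by linarith) (by norm_num) (by norm_num))
    rw [← hα, ← hβ, ← hτ] at h3
    have u1 : Real.exp θ * τ ≤ 6 * (1 / C) := by
      have h4 : Real.exp θ = Real.exp 1 * (C * τ / 2)⁻¹ := by
        rw [hθ, sub_eq_add_neg, Real.exp_add, Real.exp_neg, Real.exp_log hx0]
      rw [h4]
      have h5 : Real.exp 1 * (C * τ / 2)⁻¹ * τ = 2 * Real.exp 1 * (1 / C) := by
        field_simp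
      rw [h5]
      have h6 : Real.exp 1 ≤ 3 := by
        have := Real.exp_one_lt_d9
        linarith
      exact mul_le_mul_of_nonneg_right (by linarith) (by positivity)
    have u2 : β ≤ θ * (1 / C) := by
      rw [mul_one_div, le_div_iff₀ hC0]; linarith
    have u3 : 160 / (n : ℝ) ^ 2 ≤ 160 * (1 / C) := by
      rw [mul_one_div]
      refine div_le_div_of_nonneg_left (by norm_num) hC0 ?_
      have : (1 : ℝ) ≤ n := by exact_mod_cast (by omega : 1 ≤ n)
      nlinarith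
    rw [hCval] at u1 u2 u3
    norm_num at u1 u2 u3 h3
    linarith

theorem lower : ∃ C : ℝ, 0 < C ∧ LowerStatement C :=
  ⟨10 ^ 9, by norm_num, lower_of_numeric (10 ^ 9) (by norm_num) numeric⟩

end Pool.Agent.Helper5.R4
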