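import Mathlib
import Pool.Agent.Helper5.R4.Stmt
import Pool.Agent.Helper5.RV.Level
import Pool.Agent.Helper95.RV.Upper

/-!
# Conversations with random hash functions

Alice sends the hash values of the weights between `c` and the class `2`; Bob answers with at most
`cap` of the pairs `j, k` for which the weight that completes a triangle with the sum zero has the
same hash value.
-/

set_option autoImplicit false

namespace Pool.Agent.Helper5.R4

open Finset Pool.Agent.Helper22.ETModel Pool.Agent.Helper8.VT Pool.Agent.Helper8.UV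
open Pool.Agent.Helper5.RV (ind ind_nonneg ind_le_one ind_of ind_of_not ind_mono)

/-- Bob sends a message -/
theorem conv_bob {n : ℕ} (b : ℕ) (m : Wts n → Fin (2 ^ b)) (vt : Wts n → Fin (2 ^ b) → ℝ) :
    ∃ P : Conv n 0 b, ∀ A C, P.eval A C = vt A (m C) := by
  induction b with
  | zero =>
    refine ⟨.vote (fun A => vt A ⟨0, by norm_num⟩) (fun _ => 0), fun A C => ?_⟩
    have : m C = ⟨0, by norm_num⟩ := by
      apply Fin.ext
      have := (m C).isLt
      simp only [pow_zero] at this
      omega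
    rw [this]
    simp [Conv.eval]
  | succ b ih =>
    have hb : ∀ (r : Fin (2 ^ b)) (i : Bool), 2 * (r : ℕ) + (if i then 1 else 0) < 2 ^ (b + 1) := by
      intro r i
      have := r.isLt
      rw [pow_succ]
      split_ifs <;> omega
    have hlt : ∀ C, (m C : ℕ) / 2 < 2 ^ b := by
      intro C
      have : (m C : ℕ) < 2 ^ b * 2 := lt_of_lt_of_eq (m C).isLt (pow_succ 2 b)
      omega
    choose P hP using fun i : Bool => ih (fun C => ⟨(m C : ℕ) / 2, hlt C⟩)
      (fun A r => vt A ⟨2 * (r : ℕ) + (if i then 1 else 0), hb r i⟩)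
    refine ⟨.bob (fun C => decide ((m C : ℕ) % 2 = 1)) P, fun A C => ?_⟩
    show (P (decide ((m C : ℕ) % 2 = 1))).eval A C = _
    rw [hP]
    congr 1
    apply Fin.ext
    simp only [decide_eq_true_eq]
    split_ifs <;> omega

/-- Alice sends a message, Bob answers -/
theorem conv_two {n : ℕ} (a b : ℕ) (m : Wts n → Fin (2 ^ a))
    (m' : Fin (2 ^ a) → Wts n → Fin (2 ^ b)) (vt : Wts n → Fin (2 ^ b) → ℝ) :
    ∃ P : Conv n a b, ∀ A C, P.eval A C = vt A (m' (m A) C) := by
  induction a with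
  | zero =>
    obtain ⟨P, hP⟩ := conv_bob b (m' ⟨0, by norm_num⟩) vt
    refine ⟨P, fun A C => ?_⟩
    have : m A = ⟨0, by norm_num⟩ := by
      apply Fin.ext
      have := (m A).isLt
      simp only [pow_zero] at this
      omega
    rw [this, hP]
  | succ a ih =>
    have hb : ∀ (r : Fin (2 ^ a)) (i : Bool), 2 * (r : ℕ) + (if i then 1 else 0) < 2 ^ (a + 1) := by
      intro r i
      have := r.isLt
      rw [pow_succ]
      split_ifs <;> omega
    have hlt : ∀ A, (m A : ℕ) / 2 < 2 ^ a := by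
      intro A
      have : (m A : ℕ) < 2 ^ a * 2 := lt_of_lt_of_eq (m A).isLt (pow_succ 2 a)
      omega
    choose P hP using fun i : Bool => ih (fun A => ⟨(m A : ℕ) / 2, hlt A⟩)
      (fun r C => m' ⟨2 * (r : ℕ) + (if i then 1 else 0), hb r i⟩ C)
    refine ⟨.alice (fun A => decide ((m A : ℕ) % 2 = 1)) P, fun A C => ?_⟩
    show (P (decide ((m A : ℕ) % 2 = 1))).eval A C = _
    rw [hP]
    congr 2
    apply Fin.ext
    simp only [decide_eq_true_eq]
    split_ifs <;> omega

/-- the position of an integer -/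
def ix (n : ℕ) (z : ℤ) : Fin (4 * n ^ 300 + 1) :=
  ⟨(z + 2 * (n : ℤ) ^ 300).toNat % (4 * n ^ 300 + 1), Nat.mod_lt _ (Nat.succ_pos _)⟩

theorem ix_inj {n : ℕ} {z z' : ℤ} (h : |z| ≤ 2 * (n : ℤ) ^ 300) (h' : |z'| ≤ 2 * (n : ℤ) ^ 300)
    (he : ix n z = ix n z') : z = z' := by
  obtain ⟨M, hM⟩ : ∃ M : ℕ, M = n ^ 300 := ⟨_, rfl⟩
  have hM' : (n : ℤ) ^ 300 = (M : ℤ) := by rw [hM]; push_cast; rfl
  have h0 := congrArg Fin.val he
  unfold ix at h0
  simp only at h0
  rw [hM'] at h h' h0
  rw [← hM] at h0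
  rw [abs_le] at h h'
  have e1 : (z + 2 * (M : ℤ)).toNat < 4 * M + 1 := by omega
  have e2 : (z' + 2 * (M : ℤ)).toNat < 4 * M + 1 := by omega
  rw [Nat.mod_eq_of_lt e1, Nat.mod_eq_of_lt e2] at h0
  omega

/-- the weight that completes the triangle `c j k` -/
def vv {n : ℕ} (c : Fin n) (w : Wts n) (p : Fin n × Fin n) : ℤ := -(w c p.1 + w p.1 p.2)

/-- the pairs of classes `1` and `2` -/
def pairs (n : ℕ) : Finset (Fin n × Fin n) :=
  univ.filter fun p => (p.1 : ℕ) % 3 = 1 ∧ (p.2 : ℕ) % 3 = 2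

/-- the matches for given hash values -/
def matches' {n s : ℕ} (c : Fin n) (ω : Fin (4 * n ^ 300 + 1) → Fin (2 ^ s))
    (g : Fin n → Fin (2 ^ s)) (w : Wts n) : Finset (Fin n × Fin n) :=
  (pairs n).filter fun p => ω (ix n (vv c w p)) = g p.2

/-- a part with at most `cap` elements -/
theorem exists_part {α : Type} [DecidableEq α] (cap : ℕ) (S : Finset α) :
    ∃ T : Finset α, T ⊆ S ∧ T.card ≤ cap ∧ (S.card ≤ cap → T = S) ∧ (cap < S.card → T.card = cap) := by
  by_cases h : S.card ≤ cap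
  · exact ⟨S, Subset.refl _, h, fun _ => rfl, fun h' => absurd h (not_le.2 h')⟩
  · obtain ⟨T, hT, hc⟩ := exists_subset_card_eq (le_of_lt (not_le.1 h))
    exact ⟨T, hT, hc.le, fun h' => absurd h' h, fun _ => hc⟩

/-- sets with at most `cap` elements are few -/
theorem exists_code {α : Type} [Fintype α] [DecidableEq α] (cap M : ℕ)
    (hM : (Fintype.card α + 1) ^ cap ≤ M) :
    ∃ (e : Finset α → Fin M) (d : Fin M → Finset α), ∀ S : Finset α, S.card ≤ cap →
      d (e S) = S := by
  classical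
  let T := {S : Finset α // S.card ≤ cap}
  let f : (Fin cap → Option α) → Finset α := fun g => univ.filter fun a => ∃ i, g i = some a
  have hsurj : ∀ S : T, ∃ g : Fin cap → Option α, f g = S.1 := by
    intro S
    have hc : S.1.card ≤ cap := S.2
    let l := S.1.toList
    have hl : l.length = S.1.card := by simp [l]
    refine ⟨fun i => l[(i : ℕ)]?, ?_⟩
    ext a
    simp only [f, mem_filter, mem_univ, true_and]
    constructor
    · rintro ⟨i, hi⟩
      have := List.mem_of_getElem? hi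
      simpa [l] using this
    · intro ha
      have : a ∈ l := by simpa [l] using ha
      obtain ⟨i, hi, he⟩ := List.mem_iff_getElem.1 this
      refine ⟨⟨i, by omega⟩, ?_⟩
      simp only
      rw [List.getElem?_eq_getElem hi, he]
  choose g hg using hsurj
  have hinj : Function.Injective g := by
    intro S S' h
    apply Subtype.ext
    rw [← hg S, ← hg S', h]
  have hcard : Fintype.card T ≤ M := by
    refine (Fintype.card_le_of_injective g hinj).trans ?_
    rw [Fintype.card_fun, Fintype.card_fin, Fintype.card_option]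
    exact hM
  have hM0 : 0 < M := lt_of_lt_of_le (by positivity) hM
  have hemb : Nonempty (T ↪ Fin M) := by
    rw [Function.Embedding.nonempty_iff_card_le, Fintype.card_fin]
    exact hcard
  obtain ⟨e⟩ := hemb
  refine ⟨fun S => if h : S.card ≤ cap then e ⟨S, h⟩ else ⟨0, hM0⟩,
    fun t => if h : ∃ S : T, e S = t then (Classical.choose h).1 else ∅, fun S hS => ?_⟩
  simp only [dif_pos hS]
  have hex : ∃ S' : T, e S' = e ⟨S, hS⟩ := ⟨_, rfl⟩
  rw [dif_pos hex]
  have := e.injective (Classical.choose_spec hex)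
  rw [this]

/-- a chosen part with at most `cap` elements -/
noncomputable def part {α : Type} [DecidableEq α] (cap : ℕ) (S : Finset α) : Finset α :=
  Classical.choose (exists_part cap S)

theorem part_spec {α : Type} [DecidableEq α] (cap : ℕ) (S : Finset α) :
    part cap S ⊆ S ∧ (part cap S).card ≤ cap ∧ (S.card ≤ cap → part cap S = S) ∧
      (cap < S.card → (part cap S).card = cap) :=
  Classical.choose_spec (exists_part cap S)

/-- the hash functions -/
abbrev Hsh (n s : ℕ) : Type := Fin (4 * n ^ 300 + 1) → Fin (2 ^ s)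

/-- the matches that Bob sends -/
noncomputable def sent {n s : ℕ} (cap : ℕ) (c : Fin n) (ω : Hsh n s) (w : Wts n) :
    Finset (Fin n × Fin n) :=
  part cap (matches' c ω (fun k => ω (ix n (w c k))) w)

open Classical in
/-- the votes -/
noncomputable def hv {n s : ℕ} (cap : ℕ) (ω : Hsh n s) (r : Fin n) (I : Inst n) : ℝ :=
  if (r : ℕ) % 3 = 0 ∧ ∃ p ∈ sent cap r ω I.wt, ix n (vv r I.wt p) = ix n (I.wt r p.2) then 1
  else 0

theorem hv_free {n s : ℕ} (cap : ℕ) (ω : Hsh n s) (r c : Fin n) (hc : (c : ℕ) % 3 = 0)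
    (h : (r : ℕ) % 3 = 0 → c ≠ r) : IsFree c (hv cap ω r) := by
  classical
  refine ⟨fun _ w => if (r : ℕ) % 3 = 0 ∧ ∃ p ∈ sent cap r ω w,
    ix n (vv r w p) = ix n (w r p.2) then 1 else 0, Or.inr (Or.inl fun I _ => ?_)⟩
  unfold hv
  by_cases hr : (r : ℕ) % 3 = 0
  · have hrc : r ≠ c := fun e => h hr e.symm
    have e1 : ∀ k : Fin n, nearView c 2 I.wt r k = I.wt r k := by
      intro k
      unfold nearView
      rw [if_neg]
      rintro (⟨h1, _⟩ | ⟨_, h2⟩)
      · exact hrc h1
      · omega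
    have e2 : ∀ p ∈ pairs n, vv r (nearView c 2 I.wt) p = vv r I.wt p := by
      intro p hp
      unfold pairs at hp
      have hp' := (mem_filter.1 hp).2
      unfold vv
      rw [e1]
      congr 2
      unfold nearView
      rw [if_neg]
      rintro (⟨h1, _⟩ | ⟨h1, _⟩)
      · rw [h1] at hp'; omega
      · rw [h1] at hp'; omega
    have e3 : matches' r ω (fun k => ω (ix n (nearView c 2 I.wt r k))) (nearView c 2 I.wt) =
        matches' r ω (fun k => ω (ix n (I.wt r k))) I.wt := by
      unfold matches'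
      refine filter_congr fun p hp => ?_
      rw [e2 p hp]
      simp only [e1]
    have e4 : sent cap r ω (nearView c 2 I.wt) = sent cap r ω I.wt := by
      unfold sent
      rw [e3]
    have e5 : (∃ p ∈ sent cap r ω (nearView c 2 I.wt),
        ix n (vv r (nearView c 2 I.wt) p) = ix n (nearView c 2 I.wt r p.2)) ↔
        ∃ p ∈ sent cap r ω I.wt, ix n (vv r I.wt p) = ix n (I.wt r p.2) := by
      rw [e4]
      constructor
      · rintro ⟨p, hp, he⟩
        have hp' : p ∈ pairs n := (mem_filter.1 ((part_spec cap _).1 hp)).1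
        rw [e2 p hp', e1] at he
        exact ⟨p, hp, he⟩
      · rintro ⟨p, hp, he⟩
        have hp' : p ∈ pairs n := (mem_filter.1 ((part_spec cap _).1 hp)).1
        refine ⟨p, hp, ?_⟩
        rw [e2 p hp', e1]
        exact he
    simp only [e5]
  · simp only [hr, false_and]

/-- the size of a message -/
theorem size_item (n : ℕ) (hn : 1 ≤ n) :
    Fintype.card (Fin n × Fin (4 * n ^ 300 + 1)) + 1 ≤ 2 ^ (304 * (Nat.log 2 n + 1)) := by
  rw [Fintype.card_prod, Fintype.card_fin, Fintype.card_fin]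
  obtain ⟨t, ht⟩ : ∃ t, t = 2 ^ (Nat.log 2 n + 1) := ⟨_, rfl⟩
  have h1 : n ≤ t := by rw [ht]; exact (Nat.lt_pow_succ_log_self (by norm_num) n).le
  have ht2 : 2 ≤ t := by
    rw [ht, pow_succ]
    have : 1 ≤ 2 ^ Nat.log 2 n := Nat.one_le_two_pow
    omega
  have h2 : n ^ 300 ≤ t ^ 300 := Nat.pow_le_pow_left h1 300
  have h3 : 2 ^ (304 * (Nat.log 2 n + 1)) = t ^ 300 * (t * (t * (t * t))) := by
    rw [ht, mul_comm 304, pow_mul, show (304 : ℕ) = 300 + 4 from rfl, pow_add]
    ring
  rw [h3]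
  obtain ⟨M, hM⟩ : ∃ M, M = n ^ 300 := ⟨_, rfl⟩
  obtain ⟨T, hT⟩ : ∃ T, T = t ^ 300 := ⟨_, rfl⟩
  rw [← hM, ← hT] at h2
  rw [← hM, ← hT]
  have hM1 : 1 ≤ M := by rw [hM]; exact Nat.one_le_pow _ _ hn
  have h4 : 4 ≤ t * t := Nat.mul_le_mul ht2 ht2
  have h5 : n * (4 * M + 1) + 1 ≤ t * (6 * T) := by
    have : n * (4 * M + 1) + 1 ≤ n * (6 * M) := by nlinarith
    exact this.trans (Nat.mul_le_mul h1 (by omega))
  have h6 : 6 ≤ t * (t * t) := by nlinarith
  calc n * (4 * M + 1) + 1 ≤ t * (6 * T) := h5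
    _ = T * (t * 6) := by ring
    _ ≤ T * (t * (t * (t * t))) := Nat.mul_le_mul_left _ (Nat.mul_le_mul_left _ h6)

theorem hv_conv {n s : ℕ} (cap : ℕ) (ω : Hsh n s) (r : Fin n) (hn : 1 ≤ n) :
    IsConv r (s * n) (304 * (Nat.log 2 n + 1) * cap) (hv cap ω r) := by
  classical
  -- Alice's message
  have hcA : Fintype.card (Fin n → Fin (2 ^ s)) = 2 ^ (s * n) := by
    rw [Fintype.card_fun, Fintype.card_fin, Fintype.card_fin, pow_mul]
  let eA : (Fin n → Fin (2 ^ s)) ≃ Fin (2 ^ (s * n)) := Fintype.equivFinOfCardEq hcA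
  -- Bob's message
  obtain ⟨e, d, hed⟩ := exists_code (α := Fin n × Fin (4 * n ^ 300 + 1)) cap
    (2 ^ (304 * (Nat.log 2 n + 1) * cap)) (by
      rw [pow_mul]; exact Nat.pow_le_pow_left (size_item n hn) cap)
  let im : (Fin n → Fin (2 ^ s)) → Wts n → Finset (Fin n × Fin (4 * n ^ 300 + 1)) :=
    fun g C => (part cap (matches' r ω g C)).image fun p => (p.2, ix n (vv r C p))
  obtain ⟨P, hP⟩ := conv_two (s * n) (304 * (Nat.log 2 n + 1) * cap)
    (fun A : Wts n => eA fun k => ω (ix n (A r k)))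
    (fun t C => e (im (eA.symm t) C))
    (fun A t => if (r : ℕ) % 3 = 0 ∧ ∃ q ∈ d t, q.2 = ix n (A r q.1) then 1 else 0)
  refine ⟨fun _ => P, fun I _ => ?_⟩
  rw [hP]
  simp only [Equiv.symm_apply_apply]
  rw [hed _ (card_image_le.trans (part_spec cap _).2.1)]
  unfold hv
  by_cases hr : (r : ℕ) % 3 = 0
  swap
  · simp only [hr, false_and]
  have e1 : ∀ k : Fin n, aliceView I.wt r k = I.wt r k := by
    intro k
    unfold aliceView
    rw [if_neg]
    rintro (⟨h1, _⟩ | ⟨h1, _⟩) <;> omega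
  have e2 : ∀ p ∈ pairs n, vv r (nearView r 2 I.wt) p = vv r I.wt p := by
    intro p hp
    unfold pairs at hp
    have hp' := (mem_filter.1 hp).2
    unfold vv
    congr 2
    · unfold nearView
      rw [if_neg]
      rintro (⟨_, h2⟩ | ⟨h1, _⟩)
      · omega
      · rw [h1] at hp'; omega
    · unfold nearView
      rw [if_neg]
      rintro (⟨h1, _⟩ | ⟨h1, _⟩)
      · rw [h1] at hp'; omega
      · rw [h1] at hp'; omega
  have e3 : matches' r ω (fun k => ω (ix n (aliceView I.wt r k))) (nearView r 2 I.wt) =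
      matches' r ω (fun k => ω (ix n (I.wt r k))) I.wt := by
    unfold matches'
    refine filter_congr fun p hp => ?_
    rw [e2 p hp]
    simp only [e1]
  have e4 : (∃ q ∈ im (fun k => ω (ix n (aliceView I.wt r k))) (nearView r 2 I.wt),
      q.2 = ix n (aliceView I.wt r q.1)) ↔
      ∃ p ∈ sent cap r ω I.wt, ix n (vv r I.wt p) = ix n (I.wt r p.2) := by
    simp only [im, mem_image, sent]
    rw [e3]
    constructor
    · rintro ⟨q, ⟨p, hp, rfl⟩, he⟩
      have hp' : p ∈ pairs n := (mem_filter.1 ((part_spec cap _).1 hp)).1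
      simp only at he
      rw [e2 p hp', e1] at he
      exact ⟨p, hp, he⟩
    · rintro ⟨p, hp, he⟩
      have hp' : p ∈ pairs n := (mem_filter.1 ((part_spec cap _).1 hp)).1
      refine ⟨_, ⟨p, hp, rfl⟩, ?_⟩
      simp only
      rw [e2 p hp', e1]
      exact he
  by_cases h : ∃ p ∈ sent cap r ω I.wt, ix n (vv r I.wt p) = ix n (I.wt r p.2)
  · rw [if_pos ⟨hr, h⟩, if_pos ⟨hr, e4.2 h⟩]
  · rw [if_neg (fun h' => h h'.2), if_neg (fun h' => h (e4.1 h'.2))]

/-- the pairs with an accidental match -/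
def fls {n s : ℕ} (c : Fin n) (ω : Hsh n s) (w : Wts n) : Finset (Fin n × Fin n) :=
  (pairs n).filter fun p => ω (ix n (vv c w p)) = ω (ix n (w c p.2)) ∧
    ix n (vv c w p) ≠ ix n (w c p.2)

theorem sum_fls {n s : ℕ} (c : Fin n) (w : Wts n) :
    2 ^ s * ∑ ω : Hsh n s, (fls c ω w).card ≤ Fintype.card (Hsh n s) * n ^ 2 := by
  classical
  have h1 : ∀ p : Fin n × Fin n, 2 ^ s * (univ.filter fun ω : Hsh n s =>
      ω (ix n (vv c w p)) = ω (ix n (w c p.2)) ∧ ix n (vv c w p) ≠ ix n (w c p.2)).card ≤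
      Fintype.card (Hsh n s) := by
    intro p
    by_cases hp : ix n (vv c w p) = ix n (w c p.2)
    · rw [filter_false_of_mem (fun ω _ h => h.2 hp), card_empty]
      exact Nat.zero_le _
    · have h2 : (univ.filter fun ω : Hsh n s =>
          ω (ix n (vv c w p)) = ω (ix n (w c p.2)) ∧ ix n (vv c w p) ≠ ix n (w c p.2)).card *
          Fintype.card (Fin (2 ^ s)) ≤ Fintype.card (Hsh n s) := by
        rw [← card_univ (α := Fin (2 ^ s)), ← card_product, ← card_univ (α := Hsh n s)]
        refine card_le_card_of_injOn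
          (fun q => Function.update q.1 (ix n (vv c w p)) q.2) (fun _ _ => mem_univ _) ?_
        rintro ⟨ω, t⟩ hω ⟨ω', t'⟩ hω' he
        simp only [coe_product, Set.mem_prod, mem_coe, mem_filter, mem_univ, true_and,
          coe_univ, Set.mem_univ, and_true] at hω hω'
        simp only at he
        have e1 : t = t' := by
          have := congrFun he (ix n (vv c w p))
          rwa [Function.update_self, Function.update_self] at this
        have e2 : ∀ z, z ≠ ix n (vv c w p) → ω z = ω' z := by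
          intro z hz
          have := congrFun he z
          rwa [Function.update_of_ne hz, Function.update_of_ne hz] at this
        have e3 : ω = ω' := by
          funext z
          by_cases hz : z = ix n (vv c w p)
          · rw [hz, hω.1, hω'.1]
            exact e2 _ (fun h => hp h.symm)
          · exact e2 z hz
        rw [e1, e3]
      rw [Fintype.card_fin, mul_comm] at h2
      exact h2
  have h3 : ∑ ω : Hsh n s, (fls c ω w).card = ∑ p ∈ pairs n, (univ.filter fun ω : Hsh n s =>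
      ω (ix n (vv c w p)) = ω (ix n (w c p.2)) ∧ ix n (vv c w p) ≠ ix n (w c p.2)).card := by
    unfold fls
    simp_rw [card_filter]
    rw [sum_comm]
  rw [h3, mul_sum]
  refine (sum_le_sum fun p _ => h1 p).trans ?_
  rw [sum_const, smul_eq_mul, mul_comm]
  refine Nat.mul_le_mul_left _ ?_
  refine (card_le_univ _).trans (le_of_eq ?_)
  rw [Fintype.card_prod, Fintype.card_fin, sq]

/-- few hash functions are bad -/
theorem few_bad {n s : ℕ} (hn : 1 ≤ n) (c : Fin n) (w : Wts n) :
    20 * (univ.filter fun ω : Hsh n s => 20 * n ^ 2 / 2 ^ s + 1 ≤ (fls c ω w).card).card ≤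
      Fintype.card (Hsh n s) := by
  classical
  obtain ⟨cap, hcap⟩ : ∃ cap, cap = 20 * n ^ 2 / 2 ^ s + 1 := ⟨_, rfl⟩
  rw [← hcap]
  have h1 : (univ.filter fun ω : Hsh n s => cap ≤ (fls c ω w).card).card * cap ≤
      ∑ ω : Hsh n s, (fls c ω w).card := by
    rw [← smul_eq_mul, ← sum_const]
    refine (sum_le_sum fun ω hω => (mem_filter.1 hω).2).trans ?_
    exact sum_le_sum_of_subset (filter_subset _ _)
  have h2 := sum_fls (s := s) c w
  have h3 : 20 * n ^ 2 < 2 ^ s * cap := by
    rw [hcap]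
    exact Nat.lt_mul_div_succ _ (by positivity)
  have hn2 : 0 < n ^ 2 := by positivity
  refine Nat.le_of_mul_le_mul_right ?_ hn2
  calc 20 * (univ.filter fun ω : Hsh n s => cap ≤ (fls c ω w).card).card * n ^ 2
      = (univ.filter fun ω : Hsh n s => cap ≤ (fls c ω w).card).card * (20 * n ^ 2) := by ring
    _ ≤ (univ.filter fun ω : Hsh n s => cap ≤ (fls c ω w).card).card * (2 ^ s * cap) :=
        Nat.mul_le_mul_left _ h3.le
    _ = 2 ^ s * ((univ.filter fun ω : Hsh n s => cap ≤ (fls c ω w).card).card * cap) := by ring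
    _ ≤ 2 ^ s * ∑ ω : Hsh n s, (fls c ω w).card := Nat.mul_le_mul_left _ h1
    _ ≤ _ := h2

/-- **the converse** -/
theorem upper (n s : ℕ) (hn : 1 ≤ n) :
    ∃ (Ω : Type) (_ : Fintype Ω) (_ : Nonempty Ω) (H : Ω → Fin n → Inst n → ℝ),
      (∀ ω r, IsConv r (s * n) (304 * (Nat.log 2 n + 1) * (20 * n ^ 2 / 2 ^ s + 1)) (H ω r)) ∧
      (∀ ω (r c : Fin n), (c : ℕ) % 3 = 0 → c ≠ r → IsFree c (H ω r)) ∧
      ∀ I : Inst n, I.Valid → Tripartite I → Decides H I := by
  classical
  refine ⟨Hsh n s, inferInstance, inferInstance, hv (20 * n ^ 2 / 2 ^ s + 1),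
    fun ω r => hv_conv _ ω r hn, fun ω r c hc hcr => hv_free _ ω r c hc fun _ => hcr,
    fun I hI hT => ?_⟩
  have hb : ∀ i j, |I.wt i j| ≤ (n : ℤ) ^ 300 := hI.2.2.2
  have hvv : ∀ c p, |vv c I.wt p| ≤ 2 * (n : ℤ) ^ 300 := by
    intro c p
    unfold vv
    rw [abs_neg]
    refine (abs_add_le _ _).trans ?_
    have := hb c p.1
    have := hb p.1 p.2
    linarith
  have hw : ∀ i j, |I.wt i j| ≤ 2 * (n : ℤ) ^ 300 := by
    intro i j
    have := hb i j
    have h0 : (0 : ℤ) ≤ (n : ℤ) ^ 300 := by positivity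
    linarith
  unfold Decides
  by_cases hY : I.Yes
  · have hY' := hY
    rw [Pool.Agent.Helper95.RV.yes_iff_symm I hI.2.2.1 hT] at hY'
    obtain ⟨c, j, k, hc, hj, hk, he⟩ := hY'
    have hgood : ∀ ω : Hsh n s, (fls c ω I.wt).card < 20 * n ^ 2 / 2 ^ s + 1 →
        (0 < ∑ r, hv (20 * n ^ 2 / 2 ^ s + 1) ω r I ↔ I.Yes) := by
      intro ω hω
      refine ⟨fun _ => hY, fun _ => ?_⟩
      have h0 : ∀ r, 0 ≤ hv (20 * n ^ 2 / 2 ^ s + 1) ω r I := by
        intro r; unfold hv; split_ifs <;> norm_num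
      have h1 : hv (20 * n ^ 2 / 2 ^ s + 1) ω c I = 1 := by
        unfold hv
        rw [if_pos]
        refine ⟨hc, ?_⟩
        obtain ⟨s1, s2, s3, s4⟩ := part_spec (20 * n ^ 2 / 2 ^ s + 1)
          (matches' c ω (fun k => ω (ix n (I.wt c k))) I.wt)
        have hmem : (j, k) ∈ matches' c ω (fun k => ω (ix n (I.wt c k))) I.wt := by
          unfold matches' pairs
          rw [mem_filter, mem_filter]
          refine ⟨⟨mem_univ _, hj, hk⟩, ?_⟩
          have : vv c I.wt (j, k) = I.wt c k := by unfold vv; simp only; linarith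
          rw [this]
        by_cases hcard : (matches' c ω (fun k => ω (ix n (I.wt c k))) I.wt).card ≤
            20 * n ^ 2 / 2 ^ s + 1
        · refine ⟨(j, k), ?_, ?_⟩
          · unfold sent
            rw [s3 hcard]
            exact hmem
          · have : vv c I.wt (j, k) = I.wt c k := by unfold vv; simp only; linarith
            rw [this]
        · by_contra hno
          push Not at hno
          have hsub : sent (20 * n ^ 2 / 2 ^ s + 1) c ω I.wt ⊆ fls c ω I.wt := by
            intro p hp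
            have hp1 := s1 hp
            unfold matches' at hp1
            rw [mem_filter] at hp1
            unfold fls
            rw [mem_filter]
            exact ⟨hp1.1, hp1.2, hno p hp⟩
          have := card_le_card hsub
          have h2 : (sent (20 * n ^ 2 / 2 ^ s + 1) c ω I.wt).card = 20 * n ^ 2 / 2 ^ s + 1 :=
            s4 (not_le.1 hcard)
          omega
      refine lt_of_lt_of_le (by norm_num : (0 : ℝ) < 1) ?_
      rw [← h1]
      exact single_le_sum (fun r _ => h0 r) (mem_univ c)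
    have h1 := few_bad (s := s) hn c I.wt
    have h2 : (univ.filter fun ω : Hsh n s =>
        20 * n ^ 2 / 2 ^ s + 1 ≤ (fls c ω I.wt).card).card +
        (univ.filter fun ω : Hsh n s =>
        ¬ 20 * n ^ 2 / 2 ^ s + 1 ≤ (fls c ω I.wt).card).card = Fintype.card (Hsh n s) := by
      rw [card_filter_add_card_filter_not, card_univ]
    have h3 : (univ.filter fun ω : Hsh n s =>
        ¬ 20 * n ^ 2 / 2 ^ s + 1 ≤ (fls c ω I.wt).card).card ≤
        (univ.filter fun ω : Hsh n s =>
          (0 < ∑ r, hv (20 * n ^ 2 / 2 ^ s + 1) ω r I ↔ I.Yes)).card := by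
      refine card_le_card fun ω hω => ?_
      rw [mem_filter] at hω ⊢
      exact ⟨mem_univ _, hgood ω (not_le.1 hω.2)⟩
    omega
  · have hall : ∀ ω : Hsh n s, (0 < ∑ r, hv (20 * n ^ 2 / 2 ^ s + 1) ω r I ↔ I.Yes) := by
      intro ω
      refine ⟨fun hpos => ?_, fun h => absurd h hY⟩
      obtain ⟨r, _, hr⟩ := exists_ne_zero_of_sum_ne_zero (ne_of_gt hpos)
      unfold hv at hr
      by_cases hcond : (r : ℕ) % 3 = 0 ∧ ∃ p ∈ sent (20 * n ^ 2 / 2 ^ s + 1) r ω I.wt,
          ix n (vv r I.wt p) = ix n (I.wt r p.2)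
      · obtain ⟨hr0, p, hp, he⟩ := hcond
        have hp1 := (part_spec (20 * n ^ 2 / 2 ^ s + 1) _).1 hp
        unfold matches' pairs at hp1
        rw [mem_filter, mem_filter] at hp1
        have e1 := ix_inj (hvv r p) (hw r p.2) he
        rw [Pool.Agent.Helper95.RV.yes_iff_symm I hI.2.2.1 hT]
        refine ⟨r, p.1, p.2, hr0, hp1.1.2.1, hp1.1.2.2, ?_⟩
        unfold vv at e1
        linarith
      · rw [if_neg hcond] at hr
        exact absurd rfl hr
    rw [filter_true_of_mem fun ω _ => hall ω, card_univ]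
    omega

end Pool.Agent.Helper5.R4
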